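import Pool.Agent.Y106.CG.Defs
import Pool.Agent.W498.Dom.Defs

/-!
# Motives of the fixed part of the cohomology of a fibre: definitions
-/

open CategoryTheory AlgebraicGeometry

universe u v

namespace Pool.Agent.Y106.CG

open Pool.Agent.H914 Pool.Agent.H914.VarClass Pool.Agent.H914.VarClass.Obj Pool.Agent.W498.Dom

variable {k : Type u} [Field k] {𝒱 : VarClass k} {ops : CycleOps 𝒱}
  (W : WeilCohomology.{u, v} ops) (R : CycRel 𝒱)

/-- The class `D ^ m x` in the cohomology of `X`. -/
noncomputable def lef {X : 𝒱.Obj} (D : X.Cycles) (m : ℕ) (x : W.H X) : W.H X := hcl W D ^ m * x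

/-- The standard conjecture B of Lefschetz type for `X` and the divisor `D`: for all `j ≤ d = dim X`
a cycle on `X × X` induces an inverse of `D ^ (d - j) : H^j(X) → H^(2d - j)(X)` (so these maps are
isomorphisms: hard Lefschetz is part of the statement). -/
def StandardB (X : 𝒱.Obj) (D : X.Cycles) : Prop :=
  X.IsCyc 1 D ∧ ∀ j ≤ X.dim, ∃ z, (X.prod X).IsCyc j z ∧
    (∀ a, HasDeg W j a → app W z (lef W D (X.dim - j) a) = a) ∧
    ∀ b, HasDeg W (2 * X.dim - j) b → lef W D (X.dim - j) (app W z b) = b

variable {W} {Z S F F' : 𝒱.Obj} {g : Z ⟶ S} {G : S.Cycles} {E : Z.Cycles}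

/-- The morphism `i : F ⟶ Z` is like the inclusion of a smooth fibre of `g : Z ⟶ S`, over a point of
`S` above which `g` is smooth. The class `g^* G ^ (dim S)` is a multiple of the class of `F` (the
factor is the degree of `G ^ (dim S)`). The pull-back `i^*` factors through the stalk of the direct
image at the point: near the point the perverse cohomology sheaf `R_p` of the direct image is a
local system placed in degree `- dim S`, so that the contribution `H^(j - p)(S, R_p)` to `H^j(Z)`
restricts to zero unless `p = j + dim S`. -/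
structure IsSmoothFibre (Q : PerverseDecomposition W g G E) (i : F ⟶ Z) : Prop where
  dim_eq : Z.dim = F.dim + S.dim
  vanishes : ∀ p j : ℕ, p ≠ j + S.dim → ∀ x ∈ Q.piece p, HasDeg W j x → pb W i x = 0
  class_eq : ∃ q : ℚ, hcl W (ops.pull g (cpow ops G S.dim)) = hcl W (ops.push i (qfund F q))

variable (W)

/-- The self-correspondence `γ` of `F` induces the projector onto the part of degree `j` of the
fixed part of the cohomology: it acts as the identity on `i^* H^j(Z)`, as zero on `i^* H^l(Z)` for
`l ≠ j`, and as zero on the kernel of `i_*`, the orthogonal complement of `i^* H(Z)`. -/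
structure InducesFixed (i : F ⟶ Z) (j : ℕ) (γ : (F.prod F).Cycles) : Prop where
  apply : ∀ l, ∀ x : W.H Z, HasDeg W l x → app W γ (pb W i x) = if l = j then pb W i x else 0
  orth : ∀ y, pf W i y = 0 → app W γ y = 0

/-- The family `ρ` defines Chow motives `(F, ρ j)` with cohomology the fixed part `i^* H^j(Z)` of
`H^j(F)`: it consists of mutually orthogonal idempotent self-correspondences of degree zero
(`ρ j = 0` for `j > 2 dim F`), `ρ j` induces the projector onto the fixed part of `H^j(F)`, and it is
equivalent to the restriction to `F × F` of a cycle on `Z × Z`. -/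
structure IsFixedSystem (i : F ⟶ Z) (ρ : ℕ → (F.prod F).Cycles) : Prop where
  deg : ∀ j, (F.prod F).IsCyc F.dim (ρ j)
  out : ∀ j, 2 * F.dim < j → ρ j = 0
  comp : ∀ j l, R.Eqv (compCyc ops (ρ j) (ρ l)) (if j = l then ρ j else 0)
  induces : ∀ j, InducesFixed W i j (ρ j)
  restr : ∀ j, ∃ τ, (Z.prod Z).IsCyc F.dim τ ∧ R.Eqv (ρ j) (ops.pull (pmap i i) τ)

/-- The correspondences `u` on `F × F'` and `v` on `F' × F` of degree zero are isomorphisms inverse
to each other between the motives `(F, p)` and `(F', p')`. -/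
structure IsIsoPair (ops : CycleOps 𝒱) (R : CycRel 𝒱) (p : (F.prod F).Cycles)
    (p' : (F'.prod F').Cycles) (u : (F.prod F').Cycles) (v : (F'.prod F).Cycles) : Prop where
  deg_u : (F.prod F').IsCyc F.dim u
  deg_v : (F'.prod F).IsCyc F'.dim v
  hom_u : R.Eqv (compCyc ops (compCyc ops p u) p') u
  hom_v : R.Eqv (compCyc ops (compCyc ops p' v) p) v
  comp_uv : R.Eqv (compCyc ops u v) p
  comp_vu : R.Eqv (compCyc ops v u) p'

/-- The motives `(F, p)` and `(F', p')` are isomorphic, by isomorphisms inducing the transport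
`i^* x ↔ i'^* x` of the fixed parts of degree `j`. -/
def IsoByTransport (i : F ⟶ Z) (i' : F' ⟶ Z) (j : ℕ) (p : (F.prod F).Cycles)
    (p' : (F'.prod F').Cycles) : Prop :=
  ∃ u v, IsIsoPair ops R p p' u v ∧ ∀ x : W.H Z, HasDeg W j x →
    app W u (pb W i x) = pb W i' x ∧ app W v (pb W i' x) = pb W i x

/-- For each `j ≠ dim F` every class `a ∈ H^j(F)` is a sum of a class `i^* x` of the fixed part and a
linear combination of classes of algebraic cycles. -/
def FixedOrAlgebraic (i : F ⟶ Z) : Prop :=
  ∀ j, j ≠ F.dim → ∀ a : W.H F, HasDeg W j a → ∃ (x : W.H Z) (m : ℕ) (c : Fin m → W.K)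
    (z : Fin m → F.Cycles), (∀ s, ∃ p, j = 2 * p ∧ F.IsCyc p (z s)) ∧
    a = pb W i x + ∑ s, c s • hcl W (z s)

end Pool.Agent.Y106.CG
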