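import Pool.Agent.Y106.CG.Inst
import Pool.Agent.Y106.CG.DefsFix
import Pool.Agent.Y106.CK.Top

/-!
# Translation between statements on cycles and statements on their classes
-/

open CategoryTheory AlgebraicGeometry

universe u v w

namespace Pool.Agent.Y106.CG

open Pool.Agent.H914 Pool.Agent.H914.VarClass Pool.Agent.H914.VarClass.Obj
  Pool.Agent.H914.WeilCohomology Pool.Agent.W492.BB Pool.Agent.W492.BB.TheoryData
  Pool.Agent.W550.Corr Pool.Agent.TH133

variable {k : Type u} [Field k] {𝒱 : VarClass k}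

section comp

variable {C : TheoryData.{u, w, 0} 𝒱 ℚ} [IsChowProj C] {X Y Z : 𝒱.Obj}

/-- The composition of correspondences in terms of the other triple product. -/
lemma comp_eq_push (Γ : C.A (X.prod Y)) (Δ : C.A (Y.prod Z)) :
    C.push (p13 X Y Z) (C.pull (p12 X Y Z) Γ * C.pull (p23 X Y Z) Δ) = C.comp Γ Δ := by
  have e1 : aI X Y Z ≫ p12 X Y Z = fst (X.prod Y) Z := by
    apply prod_ext <;> simp [aI, p12, comp_lift]
  have e2 : aI X Y Z ≫ p23 X Y Z = t23 X Y Z := by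
    apply prod_ext <;> simp [aI, p23]
  have e3 : aI X Y Z ≫ p13 X Y Z = t13 X Y Z := by
    apply prod_ext <;> simp [aI, p13, comp_lift]
  have h1 := push_pull_iso C (aI X Y Z) (aJ X Y Z) aI_aJ aJ_aI
    (C.pull (p12 X Y Z) Γ * C.pull (p23 X Y Z) Δ)
  rw [← h1, ← C.push_comp, e3, map_mul, ← C.pull_comp, ← C.pull_comp, e1, e2, TheoryData.comp]
  congr 1
  exact (inferInstance : IsChowProj C).mul_comm _ _

end comp

variable {ops : CycleOps 𝒱} {W : WeilCohomology.{u, v} ops} {R : CycRel 𝒱} (hC : IsChow W R)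
  {X Y Z F F' : 𝒱.Obj}

lemma cls_comp (z : (X.prod Y).Cycles) (w : (Y.prod Z).Cycles) :
    cls hC (compCyc ops z w) = (model hC).comp (cls hC z) (cls hC w) := by
  rw [← comp_eq_push]
  rfl

lemma cls_dcyc (X : 𝒱.Obj) : cls hC (dcyc ops X) = dg (model hC) X := rfl

lemma cls_pmap (i : F ⟶ Z) (i' : F' ⟶ Z) (τ : (Z.prod Z).Cycles) :
    cls hC (ops.pull (pmap i i') τ) = (model hC).pull (prodMap i i') (cls hC τ) := rfl

lemma act_cls (γ : (X.prod Y).Cycles) (x : W.H X) : CK.act (cc hC) (cls hC γ) x = app W γ x := rfl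

lemma cls_ite {X : 𝒱.Obj} {P : Prop} [Decidable P] (z : X.Cycles) :
    cls hC (if P then z else 0) = if P then cls hC z else 0 := by
  split_ifs
  · rfl
  · exact cls_zero hC X

lemma isNilp_cls {γ : (X.prod X).Cycles} :
    CK.IsNilp (model hC) (cls hC γ) ↔ IsNilpotent R ops γ := by
  have h1 : ∀ n, cls hC ((compCyc ops γ)^[n] (dcyc ops X)) =
      compList (model hC) X (List.replicate n (cls hC γ)) := by
    intro n
    induction n with
    | zero => rfl
    | succ n ih =>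
      rw [Function.iterate_succ_apply', cls_comp, ih]
      rfl
  constructor
  · rintro ⟨n, hn⟩
    exact ⟨n, (cls_eq_zero hC).1 (by rw [h1]; exact hn)⟩
  · rintro ⟨n, hn⟩
    exact ⟨n, by rw [← h1]; exact (cls_eq_zero hC).2 hn⟩

lemma nilHomTrivial_cls (h : NilHomTrivial W R X) : CK.NilHomTrivial (cc hC) X := by
  intro γ hγ h0
  obtain ⟨z, hz, rfl⟩ := (mem_gr hC).1 hγ
  exact (isNilp_cls hC).2 (h z hz h0)

lemma orth_iff {i : F ⟶ Z} {y : W.H F} : (∀ x, W.tr F (y * W.map i x) = 0) ↔ pf W i y = 0 := by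
  constructor
  · intro h
    apply W.nondeg
    intro b
    change W.tr Z (W.push i y * b) = 0
    rw [W.tr_push, h]
  · intro h x
    have h1 : W.push i y = 0 := h
    rw [← W.tr_push, h1, zero_mul, map_zero]

lemma inducesFixed_cls {i : F ⟶ Z} {j : ℕ} {γ : (F.prod F).Cycles} :
    InducesFixed W i j γ ↔ CK.IsFixedProjector W i j (CK.act (cc hC) (cls hC γ)) :=
  ⟨fun h => ⟨h.apply, fun y hy => h.orth y (orth_iff.1 hy)⟩,
    fun h => ⟨h.apply, fun y hy => h.orth y (orth_iff.2 hy)⟩⟩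

lemma isFixedSystem_cls {i : F ⟶ Z} {ρ : ℕ → (F.prod F).Cycles} (h : IsFixedSystem W R i ρ) :
    CK.IsFixedSystem (cc hC) i (fun j => cls hC (ρ j)) where
  deg j := cls_mem hC (h.deg j)
  out j hj := by beta_reduce; rw [h.out j hj, cls_zero]
  comp j l := by
    beta_reduce
    rw [← cls_comp, (cls_eq hC).2 (h.comp j l), cls_ite]
  isFixedProjector j := (inducesFixed_cls hC).1 (h.induces j)
  exists_restr j := by
    obtain ⟨τ, hτ, h1⟩ := h.restr j
    exact ⟨cls hC τ, cls_mem hC hτ, (cls_eq hC).2 h1⟩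

/-- Representatives of a family of classes. -/
lemma exists_rep {n m : ℕ} (ρ : ℕ → (model hC).A X) (hdeg : ∀ j, ρ j ∈ (model hC).gr X n)
    (hout : ∀ j, m < j → ρ j = 0) : ∃ z : ℕ → X.Cycles, (∀ j, X.IsCyc n (z j)) ∧
      (∀ j, m < j → z j = 0) ∧ ∀ j, cls hC (z j) = ρ j := by
  have h1 : ∀ j, ∃ z, X.IsCyc n z ∧ cls hC z = ρ j := fun j => (mem_gr hC).1 (hdeg j)
  choose z hz hzρ using h1
  refine ⟨fun j => if m < j then 0 else z j, fun j => ?_, fun j hj => if_pos hj, fun j => ?_⟩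
  · beta_reduce
    split_ifs
    · exact SmVar.IsCyc.zero _ _
    · exact hz j
  · beta_reduce
    split_ifs with h
    · rw [cls_zero, hout j h]
    · exact hzρ j

lemma exists_isFixedSystem {i : F ⟶ Z} {ρ : ℕ → (model hC).A (F.prod F)}
    (h : CK.IsFixedSystem (cc hC) i ρ) :
    ∃ ρ', IsFixedSystem W R i ρ' ∧ ∀ j, cls hC (ρ' j) = ρ j := by
  obtain ⟨z, hz, hout, hzρ⟩ := exists_rep hC ρ h.deg h.out
  refine ⟨z, ⟨hz, hout, fun j l => ?_, fun j => ?_, fun j => ?_⟩, hzρ⟩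
  · rw [← cls_eq hC, cls_comp, cls_ite, hzρ, hzρ]
    exact h.comp j l
  · rw [inducesFixed_cls hC, hzρ]
    exact h.isFixedProjector j
  · obtain ⟨τ, hτ, h1⟩ := h.exists_restr j
    obtain ⟨t, ht, rfl⟩ := (mem_gr hC).1 hτ
    refine ⟨t, ht, ?_⟩
    rw [← cls_eq hC, hzρ]
    exact h1

lemma exists_isCKDec {π : ℕ → (model hC).A (X.prod X)} (h : CK.IsCKDec (cc hC) X π) :
    ∃ π', IsCKDec W R X π' ∧ ∀ j, cls hC (π' j) = π j := by
  obtain ⟨z, hz, hout, hzπ⟩ := exists_rep hC π h.deg h.out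
  refine ⟨z, ⟨hz, hout, fun j l => ?_, ?_, fun i j a ha => ?_⟩, hzπ⟩
  · rw [← cls_eq hC, cls_comp, cls_ite, hzπ, hzπ]
    exact h.comp j l
  · rw [← cls_eq hC, cls_sum, cls_dcyc, ← h.sum]
    exact Finset.sum_congr rfl fun j _ => hzπ j
  · rw [← act_cls hC, hzπ]
    exact h.act_eq i j a ha

lemma isCKDec_cls {π : ℕ → (X.prod X).Cycles} (h : IsCKDec W R X π) :
    CK.IsCKDec (cc hC) X (fun j => cls hC (π j)) where
  deg j := cls_mem hC (h.deg j)
  out j hj := by beta_reduce; rw [h.out j hj, cls_zero]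
  comp j l := by
    beta_reduce
    rw [← cls_comp, (cls_eq hC).2 (h.comp j l), cls_ite]
  sum := by
    beta_reduce
    rw [← cls_sum, (cls_eq hC).2 h.sum, cls_dcyc]
  act_eq i j a ha := h.act i j a ha

lemma exists_isIsoPair {p : (F.prod F).Cycles} {p' : (F'.prod F').Cycles}
    {u : (model hC).A (F.prod F')} {v : (model hC).A (F'.prod F)}
    (h : CK.IsIsoPair (model hC) (cls hC p) (cls hC p') u v) :
    ∃ u' v', IsIsoPair ops R p p' u' v' ∧ cls hC u' = u ∧ cls hC v' = v := by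
  obtain ⟨u', hu', rfl⟩ := (mem_gr hC).1 h.deg_u
  obtain ⟨v', hv', rfl⟩ := (mem_gr hC).1 h.deg_v
  refine ⟨u', v', ⟨hu', hv', ?_, ?_, ?_, ?_⟩, rfl, rfl⟩
  · rw [← cls_eq hC, cls_comp, cls_comp]
    exact h.hom_u
  · rw [← cls_eq hC, cls_comp, cls_comp]
    exact h.hom_v
  · rw [← cls_eq hC, cls_comp]
    exact h.comp_uv
  · rw [← cls_eq hC, cls_comp]
    exact h.comp_vu

lemma fixedOrAlgebraic_cls {i : F ⟶ Z} (h : FixedOrAlgebraic W i) : CK.FixedOrAlgebraic W i := by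
  intro j hj a ha
  obtain ⟨x, m, c, z, hz, rfl⟩ := h j hj a ha
  refine Submodule.add_mem _ (Submodule.mem_sup_left ⟨x, rfl⟩) (Submodule.mem_sup_right
    (Submodule.sum_mem _ fun s _ => Submodule.smul_mem _ _ (Submodule.subset_span ?_)))
  obtain ⟨p, hp, hzs⟩ := hz s
  exact ⟨p, z s, hp, hzs, rfl⟩

section fibre

open Pool.Agent.W498.Dom Pool.Agent.Y106.FP Pool.Agent.W534 Pool.Agent.H447 Pool.Agent.W550.B

variable {S : 𝒱.Obj} {g : Z ⟶ S} {G : S.Cycles} {E : Z.Cycles}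
  {Q : PerverseDecomposition W g G E}

include hC in
lemma isFibre_of {i : F ⟶ Z} (h : IsSmoothFibre Q i) : IsFibre Q i := by
  refine ⟨h.dim_eq, fun p j hp x hx hxj => h.vanishes p j hp x hx hxj, ?_⟩
  obtain ⟨q, hq⟩ := h.class_eq
  refine ⟨q, ?_⟩
  have h1 : hcl W (cpow ops G S.dim) = W.cl S G ^ S.dim := by
    have := congrArg (cc hC).cl (cls_cpow hC G S.dim)
    rw [map_pow] at this
    exact this
  have h2 : hcl W (ops.pull g (cpow ops G S.dim)) = W.map g (W.cl S G ^ S.dim) := by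
    rw [← h1]
    exact W.cl_pull g _
  have h3 : hcl W (ops.push i (qfund F q)) = (q : W.K) • W.push i 1 := by
    rw [hcl, W.cl_push, qfund_eq, cl_smul, map_smul]
    congr 2
    exact W.cl_fund F
  rw [fibreClass, ← h2, ← h3, hq]

/-- Hard Lefschetz and the Lefschetz standard conjecture, from inverses of the powers of `L`. -/
lemma lefschetz_of {X : 𝒱.Obj} {D : X.Cycles} (h : StandardB W X D) :
    IsLefschetzDivisor W X D ∧ LefschetzB W X D := by
  obtain ⟨hD, hz⟩ := h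
  have hpow : ∀ (m : ℕ) (a : W.H X), (LinearMap.mulLeft W.K (W.cl X D) ^ m) a = lef W D m a := by
    intro m a
    rw [LinearMap.pow_mulLeft, LinearMap.mulLeft_apply]
    rfl
  have happ : ∀ (z : (X.prod X).Cycles) (a : W.H X), app W z a = W.corr (W.cl (X.prod X) z) a :=
    fun _ _ => rfl
  have hHL : HardLefschetz W X D := by
    intro j hj
    obtain ⟨z, hzc, h1, h2⟩ := hz j hj
    constructor
    · intro a ha h0
      rw [hpow] at h0
      rw [← h1 a ha, h0, happ, map_zero]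
    · intro b hb
      refine ⟨app W z b, ?_, ?_⟩
      · have h3 := W.corr_isHom (W.cl_mem hzc) ((2 * X.dim - j : ℕ) : ℤ) b
          (by rw [grZ_natCast]; exact hb)
        rw [show ((2 * X.dim - j : ℕ) : ℤ) + 2 * ((j : ℤ) - X.dim) = (j : ℤ) by omega,
          grZ_natCast] at h3
        exact h3
      · rw [hpow]
        exact h2 b hb
  refine ⟨⟨hD, hHL⟩, lefschetzB_iff_rop.2 ?_⟩
  apply rop_opAlg.exists_lam (W.isInternal X) W_hbd (rop_mulLeft hD) hHL
  intro c hc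
  obtain ⟨z, hzc, h1, _⟩ := hz (X.dim - c) (by omega)
  refine ⟨W.corr (W.cl (X.prod X) z), rop_iff.2 (Or.inl ⟨X.dim - c, by omega, z, hzc, rfl⟩),
    fun a ha => ?_⟩
  have h4 := h1 a ha
  rw [show X.dim - (X.dim - c) = c by omega] at h4
  rw [hpow]
  exact h4

end fibre

end Pool.Agent.Y106.CG
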