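import Pool.Agent.H914R2.CorrDefs

/-!
# Chow groups, correspondences and Chow-Kunneth decompositions: definitions
-/

open CategoryTheory AlgebraicGeometry

universe u v

namespace Pool.Agent.Y106.CG

open Pool.Agent.H914 Pool.Agent.H914.VarClass Pool.Agent.H914.VarClass.Obj

variable {k : Type u} [Field k] {𝒱 : VarClass k}

/-- The cycle `q [X]`, a multiple of the fundamental cycle. -/
noncomputable def qfund (X : 𝒱.Obj) (q : ℚ) : X.Cycles := Finsupp.single (genericPoint X.V.X) q

/-- The fundamental cycle `[X]`. -/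
noncomputable def fund (X : 𝒱.Obj) : X.Cycles := qfund X 1

/-- The product `f × g : X × Z ⟶ Y × T` of two morphisms of varieties. -/
noncomputable def pmap {X Y Z T : 𝒱.Obj} (f : X ⟶ Y) (g : Z ⟶ T) : X.prod Z ⟶ Y.prod T :=
  Obj.lift (fst X Z ≫ f) (snd X Z ≫ g)

/-- A relation on cycles with rational coefficients, for example rational equivalence. -/
structure CycRel (𝒱 : VarClass k) where
  /-- the cycles `z` and `w` are equivalent -/
  Eqv : ∀ {X : 𝒱.Obj}, X.Cycles → X.Cycles → Prop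

/-- An equivalence relation compatible with sums and rational multiples. -/
structure IsCongruence (R : CycRel 𝒱) : Prop where
  refl : ∀ {X : 𝒱.Obj} (z : X.Cycles), R.Eqv z z
  symm : ∀ {X : 𝒱.Obj} {z w : X.Cycles}, R.Eqv z w → R.Eqv w z
  trans : ∀ {X : 𝒱.Obj} {z w t : X.Cycles}, R.Eqv z w → R.Eqv w t → R.Eqv z t
  add : ∀ {X : 𝒱.Obj} {z w : X.Cycles} (t : X.Cycles), R.Eqv z w → R.Eqv (z + t) (w + t)
  div : ∀ {X : 𝒱.Obj} {n : ℕ} {z : X.Cycles}, n ≠ 0 → R.Eqv (n • z) 0 → R.Eqv z 0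

/-- The relation is compatible with the codimension: every cycle is equivalent to a sum of cycles of
codimensions `0, …, dim X`, and a sum of cycles of different codimensions is equivalent to zero
only if each of them is. -/
structure IsGraded (R : CycRel 𝒱) : Prop where
  exists_sum : ∀ {X : 𝒱.Obj} (z : X.Cycles), ∃ y : ℕ → X.Cycles, (∀ p, X.IsCyc p (y p)) ∧
    R.Eqv z (∑ p ∈ Finset.range (X.dim + 1), y p)
  eqv_zero : ∀ {X : 𝒱.Obj} (y : ℕ → X.Cycles) (m : ℕ), (∀ p, X.IsCyc p (y p)) →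
    R.Eqv (∑ p ∈ Finset.range m, y p) 0 → ∀ p < m, R.Eqv (y p) 0

variable (ops : CycleOps 𝒱)

/-- Up to equivalence the intersection product of cycles is well defined, additive, commutative and
associative, with unit the fundamental cycle. -/
structure IsProduct (R : CycRel 𝒱) : Prop where
  add : ∀ {X : 𝒱.Obj} (a b c : X.Cycles), R.Eqv (ops.mul a (b + c)) (ops.mul a b + ops.mul a c)
  zero : ∀ {X : 𝒱.Obj} (a b : X.Cycles), R.Eqv b 0 → R.Eqv (ops.mul a b) 0
  comm : ∀ {X : 𝒱.Obj} (a b : X.Cycles), R.Eqv (ops.mul a b) (ops.mul b a)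
  assoc : ∀ {X : 𝒱.Obj} (a b c : X.Cycles),
    R.Eqv (ops.mul (ops.mul a b) c) (ops.mul a (ops.mul b c))
  one : ∀ {X : 𝒱.Obj} (a : X.Cycles), R.Eqv (ops.mul (fund X) a) a

/-- Up to equivalence the pull-backs of cycles are well defined, additive, multiplicative and
functorial. -/
structure IsPull (R : CycRel 𝒱) : Prop where
  add : ∀ {X Y : 𝒱.Obj} (f : X ⟶ Y) (a b : Y.Cycles),
    R.Eqv (ops.pull f (a + b)) (ops.pull f a + ops.pull f b)
  zero : ∀ {X Y : 𝒱.Obj} (f : X ⟶ Y) (a : Y.Cycles), R.Eqv a 0 → R.Eqv (ops.pull f a) 0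
  mul : ∀ {X Y : 𝒱.Obj} (f : X ⟶ Y) (a b : Y.Cycles),
    R.Eqv (ops.pull f (ops.mul a b)) (ops.mul (ops.pull f a) (ops.pull f b))
  one : ∀ {X Y : 𝒱.Obj} (f : X ⟶ Y), R.Eqv (ops.pull f (fund Y)) (fund X)
  id : ∀ {X : 𝒱.Obj} (a : X.Cycles), R.Eqv (ops.pull (𝟙 X) a) a
  comp : ∀ {X Y Z : 𝒱.Obj} (f : X ⟶ Y) (g : Y ⟶ Z) (a : Z.Cycles),
    R.Eqv (ops.pull (f ≫ g) a) (ops.pull f (ops.pull g a))

/-- Up to equivalence the push-forwards of cycles are well defined, additive and functorial; the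
push-forward of a cycle whose dimension exceeds that of the target is zero, and push-forward along
an isomorphism preserves the fundamental cycle. -/
structure IsPush (R : CycRel 𝒱) : Prop where
  add : ∀ {X Y : 𝒱.Obj} (f : X ⟶ Y) (a b : X.Cycles),
    R.Eqv (ops.push f (a + b)) (ops.push f a + ops.push f b)
  zero : ∀ {X Y : 𝒱.Obj} (f : X ⟶ Y) (a : X.Cycles), R.Eqv a 0 → R.Eqv (ops.push f a) 0
  id : ∀ {X : 𝒱.Obj} (a : X.Cycles), R.Eqv (ops.push (𝟙 X) a) a
  comp : ∀ {X Y Z : 𝒱.Obj} (f : X ⟶ Y) (g : Y ⟶ Z) (a : X.Cycles),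
    R.Eqv (ops.push (f ≫ g) a) (ops.push g (ops.push f a))
  low : ∀ {X Y : 𝒱.Obj} (f : X ⟶ Y) {p : ℕ} (a : X.Cycles), X.IsCyc p a → p + Y.dim < X.dim →
    R.Eqv (ops.push f a) 0
  iso : ∀ {X Y : 𝒱.Obj} (f : X ⟶ Y) (g : Y ⟶ X), f ≫ g = 𝟙 X → g ≫ f = 𝟙 Y →
    R.Eqv (ops.push f (fund X)) (fund Y)

/-- Up to equivalence the projection formula and base change along the projections of products
hold. -/
structure HasFormulas (R : CycRel 𝒱) : Prop where
  proj : ∀ {X Y : 𝒱.Obj} (f : X ⟶ Y) (a : X.Cycles) (b : Y.Cycles),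
    R.Eqv (ops.push f (ops.mul a (ops.pull f b))) (ops.mul (ops.push f a) b)
  base_fst : ∀ {X Y : 𝒱.Obj} (f : X ⟶ Y) (Z : 𝒱.Obj) (a : X.Cycles),
    R.Eqv (ops.pull (fst Y Z) (ops.push f a)) (ops.push (pmap f (𝟙 Z)) (ops.pull (fst X Z) a))
  base_snd : ∀ {X Y : 𝒱.Obj} (f : X ⟶ Y) (Z : 𝒱.Obj) (a : X.Cycles),
    R.Eqv (ops.pull (snd Z Y) (ops.push f a)) (ops.push (pmap (𝟙 Z) f) (ops.pull (snd Z X) a))

/-- The `n`-fold self-intersection of the cycle `h`. -/
noncomputable def cpow {X : 𝒱.Obj} (h : X.Cycles) (n : ℕ) : X.Cycles := (ops.mul h)^[n] (fund X)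

/-- Zero-cycles: the push-forward of `z × Y` to `Y` is `deg z` times the fundamental cycle of `Y`,
and each variety carries a divisor `h` with `deg h ^ (dim X) ≠ 0` (for example a hyperplane
section). -/
structure HasDegrees (R : CycRel 𝒱) : Prop where
  left : ∀ {X : 𝒱.Obj} (Y : 𝒱.Obj) (z : X.Cycles), X.IsCyc X.dim z →
    R.Eqv (ops.push (snd X Y) (ops.pull (fst X Y) z)) (qfund Y (X.V.degCycle z))
  right : ∀ {X : 𝒱.Obj} (Y : 𝒱.Obj) (z : X.Cycles), X.IsCyc X.dim z →
    R.Eqv (ops.push (fst Y X) (ops.pull (snd Y X) z)) (qfund Y (X.V.degCycle z))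
  polarized : ∀ X : 𝒱.Obj, ∃ h : X.Cycles, X.IsCyc 1 h ∧ X.V.degCycle (cpow ops h X.dim) ≠ 0

variable {ops}

section cohomology

variable (W : WeilCohomology.{u, v} ops) {X Y : 𝒱.Obj}

/-- The cohomology class of the cycle `z`. -/
noncomputable def hcl (z : X.Cycles) : W.H X := W.cl X z

/-- The class `x` lies in `H^j(X)`. -/
def HasDeg (j : ℕ) (x : W.H X) : Prop := x ∈ W.gr X j

/-- The pull-back `f^* y` in cohomology. -/
def pb (f : X ⟶ Y) (y : W.H Y) : W.H X := W.map f y

/-- The push-forward `f_* x` in cohomology. -/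
def pf (f : X ⟶ Y) (x : W.H X) : W.H Y := W.push f x

/-- The image in `H(Y)` of the class `x ∈ H(X)` under the correspondence `γ` on `X × Y`. -/
noncomputable def app (γ : (X.prod Y).Cycles) (x : W.H X) : W.H Y :=
  pf W (snd X Y) (hcl W γ * pb W (fst X Y) x)

end cohomology

variable (W : WeilCohomology.{u, v} ops) (R : CycRel 𝒱)

/-- The relation `R` has the formal properties of rational equivalence of cycles with rational
coefficients on smooth projective varieties: it is an adequate equivalence relation for which `ops`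
gives the intersection product, the pull-backs and the push-forwards, and cycles which are
equivalent to zero have the cohomology class zero. -/
structure IsChow : Prop where
  congruence : IsCongruence R
  graded : IsGraded R
  product : IsProduct ops R
  pull : IsPull ops R
  push : IsPush ops R
  formulas : HasFormulas ops R
  degrees : HasDegrees ops R
  hcl_eq_zero : ∀ {X : 𝒱.Obj} (z : X.Cycles), R.Eqv z 0 → hcl W z = 0

/-- The diagonal of `X`. -/
noncomputable def dcyc (ops : CycleOps 𝒱) (X : 𝒱.Obj) : (X.prod X).Cycles :=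
  ops.push (diag X) (fund X)

/-- The self-correspondence `γ` of `X` is nilpotent: for some `n` the composition of `n` copies of
`γ` is equivalent to zero. -/
def IsNilpotent (ops : CycleOps 𝒱) {X : 𝒱.Obj} (γ : (X.prod X).Cycles) : Prop :=
  ∃ n, R.Eqv ((compCyc ops γ)^[n] (dcyc ops X)) 0

/-- The homologically trivial self-correspondences of degree zero of `X` are nilpotent (for the Chow
groups this holds if the motive of `X` is finite-dimensional in the sense of Kimura). -/
def NilHomTrivial (X : 𝒱.Obj) : Prop :=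
  ∀ γ : (X.prod X).Cycles, (X.prod X).IsCyc X.dim γ → hcl W γ = 0 → IsNilpotent R ops γ

/-- The family `π` is a Chow-Kunneth decomposition of `X`: mutually orthogonal idempotent
self-correspondences of degree zero with sum the diagonal (`π i = 0` for `i > 2 dim X`), such that
`π i` acts on `H^i(X)` as the identity and on `H^j(X)` as zero for `j ≠ i`. -/
structure IsCKDec (X : 𝒱.Obj) (π : ℕ → (X.prod X).Cycles) : Prop where
  deg : ∀ i, (X.prod X).IsCyc X.dim (π i)
  out : ∀ i, 2 * X.dim < i → π i = 0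
  comp : ∀ i j, R.Eqv (compCyc ops (π i) (π j)) (if i = j then π i else 0)
  sum : R.Eqv (∑ i ∈ Finset.range (2 * X.dim + 1), π i) (dcyc ops X)
  act : ∀ i j, ∀ a : W.H X, HasDeg W j a → app W (π i) a = if j = i then a else 0

end Pool.Agent.Y106.CG
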