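import Pool.Agent.Y106.CG.DefsMurre
import Pool.Agent.Y106.CG.DefsFix

/-!
# Murre's conjecture (C): definitions
-/

open CategoryTheory AlgebraicGeometry

universe u v

namespace Pool.Agent.Y106.CG

open Pool.Agent.H914 Pool.Agent.H914.VarClass Pool.Agent.H914.VarClass.Obj

variable {k : Type u} [Field k] {𝒱 : VarClass k} (ops : CycleOps 𝒱) (R : CycRel 𝒱)

/-- The cycle `z` on `X` lies, up to equivalence, in the subgroup `(π_0 + … + π_(m-1))_* CH^l(X)`.
This is the step `F^ν CH^l(X)` of the filtration induced by `π`, where `m = 2 l + 1 - ν`. -/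
def InStep {X : 𝒱.Obj} (π : ℕ → (X.prod X).Cycles) (l m : ℕ) (z : X.Cycles) : Prop :=
  ∃ y, X.IsCyc l y ∧ R.Eqv z (∑ j ∈ Finset.range m, image ops (π j) y)

/-- Correspondences `c` of degree zero from `F` to `F'` do not raise the weight from `j` to `n`, for
the families `ρ` and `ρ'` of projectors: `ρ'_n c_* ρ_j` acts as zero on all groups `CH^l(F)`. -/
def NoRaise {F F' : 𝒱.Obj} (ρ : ℕ → (F.prod F).Cycles) (ρ' : ℕ → (F'.prod F').Cycles)
    (j n : ℕ) : Prop :=
  ∀ c, (F.prod F').IsCyc F.dim c → ∀ l z, F.IsCyc l z →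
    R.Eqv (image ops (ρ' n) (image ops c (image ops (ρ j) z))) 0

/-- The projectors `ρ_n` kill `CH^l(F)` for `n > 2 l`: the part `F^0 CH^l = CH^l` of Murre's
conjecture (B). -/
def ZeroAbove {F : 𝒱.Obj} (ρ : ℕ → (F.prod F).Cycles) : Prop :=
  ∀ l n, 2 * l < n → ∀ z, F.IsCyc l z → R.Eqv (image ops (ρ n) z) 0

variable {ops} (W : WeilCohomology.{u, v} ops)

/-- Murre's conjecture (C) for `X`: all Chow-Kunneth decompositions of `X` induce the same
filtration of the groups `CH^l(X)`. -/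
def MurreC (X : 𝒱.Obj) : Prop :=
  ∀ π π' : ℕ → (X.prod X).Cycles, IsCKDec W R X π → IsCKDec W R X π' →
    ∀ l m z, InStep ops R π l m z → InStep ops R π' l m z

/-- For all `j` every class `a ∈ H^j(F)` is a sum of a class `i^* x` of the fixed part and a linear
combination of classes of algebraic cycles. -/
def AllFixedOrAlgebraic {F Z : 𝒱.Obj} (i : F ⟶ Z) : Prop :=
  ∀ j, ∀ a : W.H F, HasDeg W j a → ∃ (x : W.H Z) (m : ℕ) (c : Fin m → W.K)
    (z : Fin m → F.Cycles), (∀ s, ∃ p, j = 2 * p ∧ F.IsCyc p (z s)) ∧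
    a = pb W i x + ∑ s, c s • hcl W (z s)

end Pool.Agent.Y106.CG
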