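import Pool.Agent.Y106.CG.Defs

/-!
# Self-dual families of correspondences: definitions
-/

open CategoryTheory AlgebraicGeometry

universe u v

namespace Pool.Agent.Y106.CG

open Pool.Agent.H914 Pool.Agent.H914.VarClass Pool.Agent.H914.VarClass.Obj

variable {k : Type u} [Field k] {𝒱 : VarClass k} (ops : CycleOps 𝒱) (R : CycRel 𝒱)

/-- The transpose of a correspondence: the pull-back under the exchange of the factors. -/
noncomputable def tcyc {X Y : 𝒱.Obj} (γ : (X.prod Y).Cycles) : (Y.prod X).Cycles :=
  ops.pull (Obj.lift (snd Y X) (fst Y X)) γ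

/-- The family `π` of self-correspondences of `X` is self-dual: the transpose of `π j` is equivalent
to `π (2 dim X - j)`, for `j ≤ 2 dim X`. -/
def IsSelfDual {X : 𝒱.Obj} (π : ℕ → (X.prod X).Cycles) : Prop :=
  ∀ j ≤ 2 * X.dim, R.Eqv (tcyc ops (π j)) (π (2 * X.dim - j))

end Pool.Agent.Y106.CG
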