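import Pool.Agent.Y106.CG.Defs

/-!
# Direct factors and the conjectures (B) and (D) of Murre: definitions
-/

open CategoryTheory AlgebraicGeometry

universe u v

namespace Pool.Agent.Y106.CG

open Pool.Agent.H914 Pool.Agent.H914.VarClass Pool.Agent.H914.VarClass.Obj

variable {k : Type u} [Field k] {𝒱 : VarClass k} (ops : CycleOps 𝒱) (R : CycRel 𝒱)

/-- The image `γ_* z` of the cycle `z` on `X` under the correspondence `γ` on `X × Y`. -/
noncomputable def image {X Y : 𝒱.Obj} (γ : (X.prod Y).Cycles) (z : X.Cycles) : Y.Cycles :=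
  ops.push (snd X Y) (ops.mul γ (ops.pull (fst X Y) z))

/-- The motive `(F, p)` is a direct factor of the motive `(Z, q)`: there are morphisms
`a : (F, p) → (Z, q)` and `b : (Z, q) → (F, p)` such that `a` followed by `b` is the identity `p`. -/
def IsDirectFactor {F Z : 𝒱.Obj} (p : (F.prod F).Cycles) (q : (Z.prod Z).Cycles) : Prop :=
  ∃ (a : (F.prod Z).Cycles) (b : (Z.prod F).Cycles),
    (F.prod Z).IsCyc F.dim a ∧ (Z.prod F).IsCyc Z.dim b ∧
    R.Eqv (compCyc ops (compCyc ops p a) q) a ∧ R.Eqv (compCyc ops (compCyc ops q b) p) b ∧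
    R.Eqv (compCyc ops a b) p

/-- Murre's conjecture (B) for the family `π` of self-correspondences of `X`: `π j` kills
`CH^l(X)` unless `l ≤ j ≤ 2 l`. -/
def MurreB {X : 𝒱.Obj} (π : ℕ → (X.prod X).Cycles) : Prop :=
  ∀ j l, (j < l ∨ 2 * l < j) → ∀ z, X.IsCyc l z → R.Eqv (image ops (π j) z) 0

variable {ops} (W : WeilCohomology.{u, v} ops)

/-- Murre's conjecture (D) for the family `π` of self-correspondences of `X`: `π j` kills the
homologically trivial classes in `CH^l(X)` for `j ≥ 2 l`, so that these classes lie in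
`F^1 CH^l(X)`. -/
def MurreD {X : 𝒱.Obj} (π : ℕ → (X.prod X).Cycles) : Prop :=
  ∀ j l, 2 * l ≤ j → ∀ z, X.IsCyc l z → hcl W z = 0 → R.Eqv (image ops (π j) z) 0

/-- The self-correspondences of degree zero of `X` which act as zero on `H^1(X)` kill the
homologically trivial divisor classes. For the Chow groups over an algebraically closed field this
is a theorem: the action on `Pic^0(X) ⊗ ℚ` is determined by the action on `H^1(X)`. -/
def PicardProperty (X : 𝒱.Obj) : Prop :=
  ∀ γ : (X.prod X).Cycles, (X.prod X).IsCyc X.dim γ →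
    (∀ x : W.H X, HasDeg W 1 x → app W γ x = 0) →
    ∀ z, X.IsCyc 1 z → hcl W z = 0 → R.Eqv (image ops γ z) 0

end Pool.Agent.Y106.CG
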