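import Pool.Agent.Y106.CG.Model

/-!
# The theory attached to an adequate equivalence relation has the properties of the Chow groups
-/

open CategoryTheory AlgebraicGeometry

universe u v

namespace Pool.Agent.Y106.CG

open Pool.Agent.H914 Pool.Agent.H914.VarClass Pool.Agent.H914.VarClass.Obj
  Pool.Agent.H914.WeilCohomology Pool.Agent.W492.BB Pool.Agent.W550.Corr Pool.Agent.TH133

variable {k : Type u} [Field k] {𝒱 : VarClass k} {ops : CycleOps 𝒱}
  {W : WeilCohomology.{u, v} ops} {R : CycRel 𝒱} (hC : IsChow W R)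

/-- The class of a cycle. -/
noncomputable def cls {X : 𝒱.Obj} (z : X.Cycles) : (model hC).A X := mk hC.congruence z

lemma cls_surj {X : 𝒱.Obj} (a : (model hC).A X) : ∃ z, cls hC z = a := mk_surj _ a

lemma cls_eq {X : 𝒱.Obj} {z w : X.Cycles} : cls hC z = cls hC w ↔ R.Eqv z w := mk_eq _

lemma cls_eq_zero {X : 𝒱.Obj} {z : X.Cycles} : cls hC z = 0 ↔ R.Eqv z 0 := mk_eq_zero _

lemma cls_zero (X : 𝒱.Obj) : cls hC (0 : X.Cycles) = 0 := map_zero (mk hC.congruence)

lemma cls_add {X : 𝒱.Obj} (z w : X.Cycles) : cls hC (z + w) = cls hC z + cls hC w :=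
  map_add (mk hC.congruence) z w

lemma cls_sum {X : 𝒱.Obj} {ι : Type*} (s : Finset ι) (z : ι → X.Cycles) :
    cls hC (∑ j ∈ s, z j) = ∑ j ∈ s, cls hC (z j) := map_sum (mk hC.congruence) z s

lemma cls_smul {X : 𝒱.Obj} (q : ℚ) (z : X.Cycles) : cls hC (q • z) = q • cls hC z :=
  map_smul (mk hC.congruence) q z

lemma qfund_eq (X : 𝒱.Obj) (q : ℚ) : qfund X q = q • fund X := by
  change Finsupp.single (genericPoint X.V.X) q = q • Finsupp.single (genericPoint X.V.X) (1 : ℚ)
  rw [Finsupp.smul_single, smul_eq_mul, mul_one]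

lemma cls_qfund (X : 𝒱.Obj) (q : ℚ) : cls hC (qfund X q) = q • 1 := by
  rw [qfund_eq, cls_smul]
  rfl

lemma cls_mul {X : 𝒱.Obj} (z w : X.Cycles) : cls hC (ops.mul z w) = cls hC z * cls hC w := rfl

lemma cls_fund (X : 𝒱.Obj) : cls hC (fund X) = 1 := rfl

lemma cls_pull {X Y : 𝒱.Obj} (f : X ⟶ Y) (z : Y.Cycles) :
    cls hC (ops.pull f z) = (model hC).pull f (cls hC z) := rfl

lemma cls_push {X Y : 𝒱.Obj} (f : X ⟶ Y) (z : X.Cycles) :
    cls hC (ops.push f z) = (model hC).push f (cls hC z) := rfl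

lemma mem_gr {X : 𝒱.Obj} {p : ℕ} {a : (model hC).A X} :
    a ∈ (model hC).gr X p ↔ ∃ z, X.IsCyc p z ∧ cls hC z = a := Iff.rfl

lemma cls_mem {X : 𝒱.Obj} {p : ℕ} {z : X.Cycles} (hz : X.IsCyc p z) :
    cls hC z ∈ (model hC).gr X p := ⟨z, hz, rfl⟩

lemma gr_neg {X : 𝒱.Obj} {i : ℤ} (hi : i < 0) : (model hC).gr X i = ⊥ := grA_neg _ hi

lemma mem_gr' {X : 𝒱.Obj} {i : ℤ} {a : (model hC).A X} (ha : a ∈ (model hC).gr X i) :
    a = 0 ∨ ∃ p : ℕ, (p : ℤ) = i ∧ ∃ z, X.IsCyc p z ∧ cls hC z = a := by
  rcases lt_or_ge i 0 with h | h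
  · rw [gr_neg hC h] at ha
    exact Or.inl ((Submodule.mem_bot _).1 ha)
  · lift i to ℕ using h
    obtain ⟨z, hz, rfl⟩ := (mem_gr hC).1 ha
    exact Or.inr ⟨i, rfl, z, hz, rfl⟩

lemma isInternal (X : 𝒱.Obj) : DirectSum.IsInternal ((model hC).gr X) := by
  classical
  constructor
  · rw [injective_iff_map_eq_zero]
    intro v hv
    rw [DirectSum.coeAddMonoidHom_eq_dfinsuppSum] at hv
    -- representatives
    have h1 : ∀ p : ℕ, ∃ z, X.IsCyc p z ∧ cls hC z = (v p : (model hC).A X) := fun p =>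
      (mem_gr hC).1 (v p).2
    choose y hy hyv using h1
    have hneg : ∀ i : ℤ, i < 0 → v i = 0 := fun i hi => by
      have := (gr_neg hC hi).le (v i).2
      exact Subtype.ext ((Submodule.mem_bot _).1 this)
    set m : ℕ := (v.support.sup fun i => i.toNat) + 1 with hm
    have hsub : v.support ⊆ (Finset.range m).map ⟨fun p : ℕ => (p : ℤ), Nat.cast_injective⟩ := by
      intro i hi
      have h0 : ¬ i < 0 := fun h => (DFinsupp.mem_support_iff.1 hi) (hneg i h)
      rw [Finset.mem_map]
      refine ⟨i.toNat, Finset.mem_range.2 ?_, Int.toNat_of_nonneg (by omega)⟩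
      have := Finset.le_sup (f := fun i : ℤ => i.toNat) hi
      simp only at this
      omega
    have h2 : cls hC (∑ p ∈ Finset.range m, y p) = 0 := by
      rw [cls_sum, ← hv, DFinsupp.sum, Finset.sum_subset hsub, Finset.sum_map]
      · exact Finset.sum_congr rfl fun p _ => hyv p
      · intro i _ hi
        rw [DFinsupp.notMem_support_iff] at hi
        rw [hi]
        rfl
    have h3 := hC.graded.eqv_zero y m hy ((cls_eq_zero hC).1 h2)
    apply DFinsupp.ext
    intro i
    rw [DFinsupp.zero_apply]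
    by_contra hne
    have hi := hsub (DFinsupp.mem_support_iff.2 hne)
    rw [Finset.mem_map] at hi
    obtain ⟨p, hp, rfl⟩ := hi
    apply hne
    apply Subtype.ext
    change ((v (p : ℤ) : (model hC).A X)) = 0
    rw [← hyv p]
    exact (cls_eq_zero hC).2 (h3 p (Finset.mem_range.1 hp))
  · intro a
    obtain ⟨z, rfl⟩ := cls_surj hC a
    obtain ⟨y, hy, hz⟩ := hC.graded.exists_sum z
    refine ⟨∑ p ∈ Finset.range (X.dim + 1), DirectSum.of (fun i => (model hC).gr X i) (p : ℤ)
      ⟨cls hC (y p), cls_mem hC (hy p)⟩, ?_⟩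
    rw [map_sum, (cls_eq hC).2 hz, cls_sum]
    exact Finset.sum_congr rfl fun p _ => DirectSum.coeAddMonoidHom_of _ _ _

lemma gr_top {X : 𝒱.Obj} {i : ℤ} {x : (model hC).A X} (hx : x ∈ (model hC).gr X i)
    (hi : (X.dim : ℤ) < i) : x = 0 := by
  rcases mem_gr' hC hx with h | ⟨p, rfl, z, hz, rfl⟩
  · exact h
  · obtain ⟨y, hy, hzy⟩ := hC.graded.exists_sum z
    -- the family `y`, with `- z` in codimension `p`
    have hp : X.dim < p := by exact_mod_cast hi
    let y' : ℕ → X.Cycles := fun q => if q = p then (-1 : ℚ) • z else if q < X.dim + 1 then y q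
      else 0
    have hy' : ∀ q, X.IsCyc q (y' q) := by
      intro q
      simp only [y']
      split_ifs with h1 h2
      · subst h1; exact hz.smul _
      · exact hy q
      · exact SmVar.IsCyc.zero _ _
    have h1 : cls hC (∑ q ∈ Finset.range (p + 1), y' q) = 0 := by
      rw [cls_sum, Finset.sum_range_succ]
      have h2 : ∑ q ∈ Finset.range p, cls hC (y' q) =
          ∑ q ∈ Finset.range (X.dim + 1), cls hC (y q) := by
        symm
        apply Finset.sum_subset_zero_on_sdiff
        · intro q hq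
          rw [Finset.mem_range] at hq ⊢
          omega
        · intro q hq
          rw [Finset.mem_sdiff, Finset.mem_range, Finset.mem_range] at hq
          simp only [y']
          rw [if_neg (by omega), if_neg hq.2, cls_zero]
        · intro q hq
          rw [Finset.mem_range] at hq
          simp only [y']
          rw [if_neg (by omega), if_pos hq]
      rw [h2, ← cls_sum, ← (cls_eq hC).2 hzy]
      simp only [y']
      rw [if_pos trivial, cls_smul, neg_one_smul, add_neg_cancel]
    have h3 := hC.graded.eqv_zero y' (p + 1) hy' ((cls_eq_zero hC).1 h1) p (Nat.lt_succ_self p)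
    have h4 := (cls_eq_zero hC).2 h3
    simp only [y'] at h4
    rw [if_pos trivial, cls_smul, neg_one_smul, neg_eq_zero] at h4
    exact h4

lemma isGradedRing : (model hC).IsGradedRing where
  isInternal := isInternal hC
  gr_neg _ _ hi := gr_neg hC hi
  one_mem X := ⟨fund X, SmVar.fundCycle_mem _, rfl⟩
  mul_mem := by
    intro X i j a b ha hb
    rcases mem_gr' hC ha with rfl | ⟨p, rfl, z, hz, rfl⟩
    · change (0 : (model hC).A X) * b ∈ _
      rw [zero_mul]
      exact Submodule.zero_mem _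
    · rcases mem_gr' hC hb with rfl | ⟨q, rfl, w, hw, rfl⟩
      · change cls hC z * (0 : (model hC).A X) ∈ _
        rw [mul_zero]
        exact Submodule.zero_mem _
      · rw [← Nat.cast_add]
        exact ⟨_, ops.mul_mem hz hw, rfl⟩

lemma hasDegrees : (model hC).HasDegrees 1 where
  pull_mem := by
    intro X Y f i b hb
    rcases mem_gr' hC hb with rfl | ⟨p, rfl, z, hz, rfl⟩
    · change (model hC).pull f 0 ∈ _
      rw [map_zero]
      exact Submodule.zero_mem _
    · exact ⟨_, ops.pull_mem f hz, rfl⟩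
  push_mem := by
    intro X Y f i a ha
    rcases mem_gr' hC ha with rfl | ⟨p, rfl, z, hz, rfl⟩
    · change (model hC).push f 0 ∈ _
      rw [map_zero]
      exact Submodule.zero_mem _
    · rcases lt_or_ge (p + Y.dim) X.dim with h | h
      · change cls hC (ops.push f z) ∈ _
        rw [(cls_eq_zero hC).2 (hC.push.low f z hz h)]
        exact Submodule.zero_mem _
      · obtain ⟨q, hq⟩ : ∃ q, p + Y.dim = q + X.dim := ⟨p + Y.dim - X.dim, by omega⟩
        have e : (p : ℤ) + 1 * (Y.dim - X.dim) = (q : ℤ) := by omega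
        rw [e]
        exact ⟨_, ops.push_mem f hz hq, rfl⟩

lemma isFunctor : (model hC).IsFunctor where
  pull_id a := by
    obtain ⟨a, rfl⟩ := cls_surj hC a
    exact (cls_eq hC).2 (hC.pull.id a)
  pull_comp f g a := by
    obtain ⟨a, rfl⟩ := cls_surj hC a
    exact (cls_eq hC).2 (hC.pull.comp f g a)
  push_id a := by
    obtain ⟨a, rfl⟩ := cls_surj hC a
    exact (cls_eq hC).2 (hC.push.id a)
  push_comp f g a := by
    obtain ⟨a, rfl⟩ := cls_surj hC a
    exact (cls_eq hC).2 (hC.push.comp f g a)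

lemma model_comm {X : 𝒱.Obj} (a b : (model hC).A X) : a * b = b * a := by
  obtain ⟨a, rfl⟩ := cls_surj hC a
  obtain ⟨b, rfl⟩ := cls_surj hC b
  exact (cls_eq hC).2 (hC.product.comm a b)

lemma hasProjectionFormula : (model hC).HasProjectionFormula where
  proj_right f a b := by
    obtain ⟨a, rfl⟩ := cls_surj hC a
    obtain ⟨b, rfl⟩ := cls_surj hC b
    exact (cls_eq hC).2 (hC.formulas.proj f a b)
  proj_left {X Y} f a b := by
    change (model hC).push f ((model hC).pull f b * a) = b * (model hC).push f a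
    rw [model_comm hC _ a, model_comm hC b]
    obtain ⟨a, rfl⟩ := cls_surj hC a
    obtain ⟨b, rfl⟩ := cls_surj hC b
    exact (cls_eq hC).2 (hC.formulas.proj f a b)

lemma hasBaseChange : (model hC).HasBaseChange where
  base_fst f Z a := by
    obtain ⟨a, rfl⟩ := cls_surj hC a
    exact (cls_eq hC).2 (hC.formulas.base_fst f Z a)
  base_snd f Z a := by
    obtain ⟨a, rfl⟩ := cls_surj hC a
    exact (cls_eq hC).2 (hC.formulas.base_snd f Z a)

lemma isTheory : IsTheory (model hC) 1 where
  isGradedRing := isGradedRing hC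
  hasDegrees := hasDegrees hC
  isFunctor := isFunctor hC
  hasProjectionFormula := hasProjectionFormula hC
  hasBaseChange := hasBaseChange hC

lemma cpow_mem {X : 𝒱.Obj} {h : X.Cycles} (hh : X.IsCyc 1 h) (n : ℕ) :
    X.IsCyc n (cpow ops h n) := by
  induction n with
  | zero => exact SmVar.fundCycle_mem _
  | succ n ih =>
    rw [cpow, Function.iterate_succ_apply', Nat.add_comm n 1]
    exact ops.mul_mem hh ih

lemma cls_cpow {X : 𝒱.Obj} (h : X.Cycles) (n : ℕ) : cls hC (cpow ops h n) = cls hC h ^ n := by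
  induction n with
  | zero => rw [pow_zero]; rfl
  | succ n ih =>
    rw [cpow, Function.iterate_succ_apply', cls_mul, pow_succ', ← ih]
    rfl

/-- A cycle of codimension zero is a multiple of the fundamental cycle. -/
lemma eq_smul_fund {X : 𝒱.Obj} {z : X.Cycles} (hz : X.IsCyc 0 z) : ∃ q : ℚ, z = q • fund X := by
  classical
  refine ⟨X.V.coeff z (genericPoint X.V.X), ?_⟩
  apply Finsupp.ext (M := ℚ)
  intro x
  by_cases hx : x = genericPoint X.V.X
  · subst hx
    change X.V.coeff z _ = X.V.coeff z _ * (Finsupp.single (genericPoint X.V.X) (1 : ℚ)) _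
    rw [Finsupp.single_eq_same, mul_one]
  · have h1 : X.V.coeff z x = 0 := by
      by_contra hne
      have h2 := hz x hne
      rw [Nat.cast_zero, Order.coheight_eq_zero] at h2
      apply hx
      have h3 : genericPoint X.V.X ⤳ x := genericPoint_specializes x
      have h4 : x ≤ genericPoint X.V.X := h3
      have h5 : x ⤳ genericPoint X.V.X := h2 h4
      exact (h5.antisymm h3).eq
    change X.V.coeff z x = X.V.coeff z _ * (Finsupp.single (genericPoint X.V.X) (1 : ℚ)) _
    rw [h1, Finsupp.single_eq_of_ne hx, mul_zero]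

lemma push_pull_zero_cycle {X : 𝒱.Obj} {x : (model hC).A X} (hx : (model hC).Deg X.dim x) :
    ∃ q : ℚ, ∀ Y : 𝒱.Obj,
    (model hC).down (snd X Y) ((model hC).up (fst X Y) x) = q • (1 : (model hC).A Y) ∧
      (model hC).down (fst Y X) ((model hC).up (snd Y X) x) = q • (1 : (model hC).A Y) := by
  obtain ⟨z, hz, rfl⟩ := (mem_gr hC).1 hx
  exact ⟨X.V.degCycle z, fun Y => ⟨((cls_eq hC).2 (hC.degrees.left Y z hz)).trans
    (cls_qfund hC Y _), ((cls_eq hC).2 (hC.degrees.right Y z hz)).trans (cls_qfund hC Y _)⟩⟩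

lemma polarized (X : 𝒱.Obj) : ∃ h : (model hC).A X, (model hC).Deg 1 h ∧ ∃ q : ℚ, q ≠ 0 ∧
    (∀ Y, (model hC).down (snd X Y) ((model hC).up (fst X Y) (h ^ X.dim)) =
      q • (1 : (model hC).A Y) ∧
    (model hC).down (fst Y X) ((model hC).up (snd Y X) (h ^ X.dim)) =
      q • (1 : (model hC).A Y)) ∧ (model hC).Deg X.dim (h ^ X.dim) := by
  obtain ⟨h, hh, hq⟩ := hC.degrees.polarized X
  refine ⟨cls hC h, ⟨h, hh, rfl⟩, _, hq, fun Y => ?_, ?_⟩
  · rw [← cls_cpow]
    exact ⟨((cls_eq hC).2 (hC.degrees.left Y _ (cpow_mem hh _))).trans (cls_qfund hC Y _),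
      ((cls_eq hC).2 (hC.degrees.right Y _ (cpow_mem hh _))).trans (cls_qfund hC Y _)⟩
  · rw [← cls_cpow]
    exact ⟨_, cpow_mem hh _, rfl⟩

instance : IsChowProj (model hC) where
  isTheory := isTheory hC
  mul_comm a b := model_comm hC a b
  exists_deg_one X := by
    obtain ⟨h, _, q, hq, hY, hd⟩ := polarized hC X
    refine ⟨q⁻¹ • h ^ X.dim, Submodule.smul_mem _ _ hd, fun Y => ?_, fun Y => ?_⟩
    · change (model hC).push _ ((model hC).pull _ _) = 1
      rw [map_smul, map_smul]
      have := (hY Y).2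
      change (model hC).push _ ((model hC).pull _ _) = _ at this
      rw [this, smul_smul, inv_mul_cancel₀ hq, one_smul]
    · change (model hC).push _ ((model hC).pull _ _) = 1
      rw [map_smul, map_smul]
      have := (hY Y).1
      change (model hC).push _ ((model hC).pull _ _) = _ at this
      rw [this, smul_smul, inv_mul_cancel₀ hq, one_smul]
  push_one f g h1 h2 := (cls_eq hC).2 (hC.push.iso f g h1 h2)
  gr_zero X x hx := by
    rw [← Nat.cast_zero] at hx
    obtain ⟨z, hz, rfl⟩ := (mem_gr hC).1 hx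
    obtain ⟨q, rfl⟩ := eq_smul_fund hz
    exact ⟨q, cls_smul hC q _⟩
  gr_top X i x hx hi := gr_top hC hx hi
  degree X x hx := push_pull_zero_cycle hC hx
  polarized X := by
    obtain ⟨h, h1, q, hq, hY, _⟩ := polarized hC X
    exact ⟨h, h1, q, hq, (hY X).1⟩

/-- The cohomology class. -/
noncomputable def clHom (X : 𝒱.Obj) : (model hC).A X →+* W.H X where
  toFun a := Quotient.liftOn' a (fun z => W.cl X z) (fun z w h => by
    have h1 : z - w ∈ NSub hC.congruence X := (Submodule.quotientRel_def _).1 h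
    have h2 : W.cl X (z - w) = 0 := hC.hcl_eq_zero (z - w) h1
    rw [map_sub, sub_eq_zero] at h2
    exact h2)
  map_one' := W.cl_fund X
  map_mul' := by
    intro a b
    obtain ⟨a, rfl⟩ := cls_surj hC a
    obtain ⟨b, rfl⟩ := cls_surj hC b
    exact W.cl_mul a b
  map_zero' := map_zero (W.cl X)
  map_add' := by
    intro a b
    obtain ⟨a, rfl⟩ := cls_surj hC a
    obtain ⟨b, rfl⟩ := cls_surj hC b
    exact map_add (W.cl X) a b

/-- The cycle classes. -/
noncomputable def cc : Pool.Agent.Y106.CK.CycleClasses (model hC) W where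
  of := (mk hC.congruence).toAddMonoidHom
  cl {X} := clHom hC X
  of_mem hz := ⟨_, hz, rfl⟩
  exists_of hx := (mem_gr hC).1 hx
  cl_of _ := rfl
  cl_pull f y := by
    obtain ⟨y, rfl⟩ := cls_surj hC y
    exact W.cl_pull f y
  cl_push f y := by
    obtain ⟨y, rfl⟩ := cls_surj hC y
    exact W.cl_push f y

end Pool.Agent.Y106.CG
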