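import Pool.Agent.Y106.CG.Defs
import Pool.Agent.Y106.CK.Defs

/-!
# The theory of Chow groups attached to an adequate equivalence relation on cycles
-/

open CategoryTheory AlgebraicGeometry

universe u v

namespace Pool.Agent.Y106.CG

open Pool.Agent.H914 Pool.Agent.H914.VarClass Pool.Agent.H914.VarClass.Obj
  Pool.Agent.H914.WeilCohomology Pool.Agent.W492.BB Pool.Agent.W550.Corr Pool.Agent.TH133

section alg

variable {A B : Type*} [AddCommGroup A] [AddCommGroup B] [Module ℚ A] [Module ℚ B]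

/-- A map which is additive modulo `M` and maps `N` to `M` induces a linear map. -/
noncomputable def desc (N : Submodule ℚ A) (M : Submodule ℚ B) (f : A → B)
    (hadd : ∀ a b, f (a + b) - (f a + f b) ∈ M) (hzero : ∀ a ∈ N, f a ∈ M) :
    (A ⧸ N) →ₗ[ℚ] (B ⧸ M) :=
  N.liftQ (AddMonoidHom.mk' (fun a => M.mkQ (f a)) (fun a b => by
    rw [← map_add, ← sub_eq_zero, ← map_sub]
    exact (Submodule.Quotient.mk_eq_zero M).2 (hadd a b))).toRatLinearMap (by
      intro a ha
      rw [LinearMap.mem_ker]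
      exact (Submodule.Quotient.mk_eq_zero M).2 (hzero a ha))

lemma desc_mk (N : Submodule ℚ A) (M : Submodule ℚ B) (f : A → B)
    (hadd : ∀ a b, f (a + b) - (f a + f b) ∈ M) (hzero : ∀ a ∈ N, f a ∈ M) (a : A) :
    desc N M f hadd hzero (N.mkQ a) = M.mkQ (f a) := rfl

end alg

variable {k : Type u} [Field k] {𝒱 : VarClass k} {ops : CycleOps 𝒱}
  {W : WeilCohomology.{u, v} ops} {R : CycRel 𝒱}

lemma IsCongruence.add' (hE : IsCongruence R) {X : 𝒱.Obj} {z w z' w' : X.Cycles}
    (h : R.Eqv z w) (h' : R.Eqv z' w') : R.Eqv (z + z') (w + w') := by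
  apply hE.trans (hE.add z' h)
  rw [add_comm w z', add_comm w w']
  exact hE.add w h'

lemma IsCongruence.neg (hE : IsCongruence R) {X : 𝒱.Obj} {z : X.Cycles} (h : R.Eqv z 0) :
    R.Eqv (-z) 0 := by
  have h1 := hE.add (-z) h
  rw [add_neg_cancel, zero_add] at h1
  exact hE.symm h1

lemma IsCongruence.nsmul (hE : IsCongruence R) {X : 𝒱.Obj} {z : X.Cycles} (h : R.Eqv z 0) (n : ℕ) :
    R.Eqv (n • z) 0 := by
  induction n with
  | zero => rw [zero_nsmul]; exact hE.refl 0
  | succ n ih =>
    rw [succ_nsmul]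
    have := hE.add' ih h
    rwa [add_zero] at this

lemma IsCongruence.zsmul (hE : IsCongruence R) {X : 𝒱.Obj} {z : X.Cycles} (h : R.Eqv z 0) (n : ℤ) :
    R.Eqv (n • z) 0 := by
  cases n with
  | ofNat n => rw [Int.ofNat_eq_natCast, natCast_zsmul]; exact hE.nsmul h n
  | negSucc n => rw [negSucc_zsmul]; exact hE.neg (hE.nsmul h _)

/-- The subspace of the cycles which are equivalent to zero. -/
noncomputable def NSub (hE : IsCongruence R) (X : 𝒱.Obj) : Submodule ℚ X.Cycles where
  carrier := {z | R.Eqv z 0}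
  add_mem' := fun {z w} hz hw => by
    have := hE.add' hz hw
    rwa [add_zero] at this
  zero_mem' := hE.refl 0
  smul_mem' := fun q z hz => by
    apply hE.div (n := q.den) q.den_nz
    have h1 : q.den • (q • z) = q.num • z := by
      rw [← Nat.cast_smul_eq_nsmul ℚ, ← Int.cast_smul_eq_zsmul ℚ, smul_smul, Rat.den_mul_eq_num]
    rw [h1]
    exact hE.zsmul hz _

lemma mem_NSub (hE : IsCongruence R) {X : 𝒱.Obj} {z : X.Cycles} : z ∈ NSub hE X ↔ R.Eqv z 0 :=
  Iff.rfl

lemma eqv_iff_sub (hE : IsCongruence R) {X : 𝒱.Obj} {z w : X.Cycles} :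
    z - w ∈ NSub hE X ↔ R.Eqv z w := by
  rw [mem_NSub]
  constructor
  · intro h
    have h1 := hE.add w h
    rwa [sub_add_cancel, zero_add] at h1
  · intro h
    have h1 := hE.add (-w) h
    rwa [add_neg_cancel, ← sub_eq_add_neg] at h1

/-- The group of cycles modulo the equivalence relation. -/
def AX (hE : IsCongruence R) (X : 𝒱.Obj) : Type u := X.Cycles ⧸ NSub hE X

variable {hE : IsCongruence R}

noncomputable instance (X : 𝒱.Obj) : AddCommGroup (AX hE X) :=
  inferInstanceAs (AddCommGroup (X.Cycles ⧸ NSub hE X))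

noncomputable instance (X : 𝒱.Obj) : Module ℚ (AX hE X) :=
  inferInstanceAs (Module ℚ (X.Cycles ⧸ NSub hE X))

variable (hE)

/-- The class of a cycle. -/
noncomputable def mk {X : 𝒱.Obj} : X.Cycles →ₗ[ℚ] AX hE X := (NSub hE X).mkQ

lemma mk_surj {X : 𝒱.Obj} (a : AX hE X) : ∃ z, mk hE z = a := Submodule.mkQ_surjective _ a

lemma mk_eq {X : 𝒱.Obj} {z w : X.Cycles} : mk hE z = mk hE w ↔ R.Eqv z w :=
  (Submodule.Quotient.eq (NSub hE X)).trans (eqv_iff_sub hE)

lemma mk_eq_zero {X : 𝒱.Obj} {z : X.Cycles} : mk hE z = 0 ↔ R.Eqv z 0 := by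
  rw [← mk_eq hE, map_zero]

/-- The product. -/
noncomputable def mulL (hP : IsProduct ops R) (X : 𝒱.Obj) :
    AX hE X →ₗ[ℚ] AX hE X →ₗ[ℚ] AX hE X :=
  (NSub hE X).liftQ (AddMonoidHom.mk' (fun a : X.Cycles => (desc (NSub hE X) (NSub hE X) (ops.mul a)
      (fun b c => (eqv_iff_sub hE).2 (hP.add a b c)) (fun b hb => hP.zero a b hb) :
      AX hE X →ₗ[ℚ] AX hE X)) (fun a b => by
    apply LinearMap.ext
    intro c
    obtain ⟨c, rfl⟩ := mk_surj hE c
    change mk hE (ops.mul (a + b) c) = mk hE (ops.mul a c) + mk hE (ops.mul b c)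
    rw [(mk_eq hE).2 (hP.comm _ c), (mk_eq hE).2 (hP.comm a c), (mk_eq hE).2 (hP.comm b c),
      (mk_eq hE).2 (hP.add c a b), map_add])).toRatLinearMap (by
      intro a ha
      rw [LinearMap.mem_ker]
      apply LinearMap.ext
      intro c
      obtain ⟨c, rfl⟩ := mk_surj hE c
      change mk hE (ops.mul a c) = 0
      rw [(mk_eq hE).2 (hP.comm a c), mk_eq_zero]
      exact hP.zero c a ha)

lemma mulL_mk (hP : IsProduct ops R) {X : 𝒱.Obj} (a b : X.Cycles) :
    mulL hE hP X (mk hE a) (mk hE b) = mk hE (ops.mul a b) := rfl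

/-- The ring structure. -/
@[reducible] noncomputable def ringA (hP : IsProduct ops R) (X : 𝒱.Obj) : Ring (AX hE X) :=
  { (inferInstance : AddCommGroup (AX hE X)) with
    mul := fun a b => mulL hE hP X a b
    one := mk hE (fund X)
    mul_assoc := fun a b c => by
      obtain ⟨a, rfl⟩ := mk_surj hE a
      obtain ⟨b, rfl⟩ := mk_surj hE b
      obtain ⟨c, rfl⟩ := mk_surj hE c
      exact (mk_eq hE).2 (hP.assoc a b c)
    one_mul := fun a => by
      obtain ⟨a, rfl⟩ := mk_surj hE a
      exact (mk_eq hE).2 (hP.one a)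
    mul_one := fun a => by
      obtain ⟨a, rfl⟩ := mk_surj hE a
      change mk hE (ops.mul a (fund X)) = mk hE a
      rw [(mk_eq hE).2 (hP.comm a _)]
      exact (mk_eq hE).2 (hP.one a)
    left_distrib := fun a b c => map_add (mulL hE hP X a) b c
    right_distrib := fun a b c => by
      change mulL hE hP X (a + b) c = mulL hE hP X a c + mulL hE hP X b c
      rw [map_add, LinearMap.add_apply]
    zero_mul := fun a => by
      change mulL hE hP X 0 a = 0
      rw [map_zero, LinearMap.zero_apply]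
    mul_zero := fun a => map_zero (mulL hE hP X a) }

/-- The algebra structure. -/
@[reducible] noncomputable def algA (hP : IsProduct ops R) (X : 𝒱.Obj) :
    @Algebra ℚ (AX hE X) _ (ringA hE hP X).toSemiring :=
  letI := ringA hE hP X
  Algebra.ofModule (fun q a b => by
      change mulL hE hP X (q • a) b = q • mulL hE hP X a b
      rw [map_smul, LinearMap.smul_apply])
    (fun q a b => map_smul (mulL hE hP X a) q b)

/-- The cycles of codimension `p`. -/
noncomputable def cycSub (X : 𝒱.Obj) (p : ℕ) : Submodule ℚ X.Cycles where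
  carrier := {z | X.IsCyc p z}
  add_mem' := fun ha hb => SmVar.IsCyc.add ha hb
  zero_mem' := SmVar.IsCyc.zero _ _
  smul_mem' := fun q _ hz => SmVar.IsCyc.smul q hz

/-- The grading. -/
noncomputable def grA (X : 𝒱.Obj) : ℤ → Submodule ℚ (AX hE X)
  | Int.ofNat p => (cycSub X p).map (mk hE)
  | Int.negSucc _ => ⊥

lemma mem_grA {X : 𝒱.Obj} {p : ℕ} {a : AX hE X} :
    a ∈ grA hE X p ↔ ∃ z, X.IsCyc p z ∧ mk hE z = a := Iff.rfl

lemma grA_neg {X : 𝒱.Obj} {i : ℤ} (hi : i < 0) : grA hE X i = ⊥ := by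
  cases i with
  | ofNat p => exact absurd hi (by simp)
  | negSucc p => rfl

/-- The pull-back. -/
noncomputable def pullA (hC : IsPull ops R) {X Y : 𝒱.Obj} (f : X ⟶ Y) : AX hE Y →ₗ[ℚ] AX hE X :=
  desc (NSub hE Y) (NSub hE X) (ops.pull f) (fun a b => (eqv_iff_sub hE).2 (hC.add f a b))
    (fun a ha => hC.zero f a ha)

/-- The push-forward. -/
noncomputable def pushA (hC : IsPush ops R) {X Y : 𝒱.Obj} (f : X ⟶ Y) : AX hE X →ₗ[ℚ] AX hE Y :=
  desc (NSub hE X) (NSub hE Y) (ops.push f) (fun a b => (eqv_iff_sub hE).2 (hC.add f a b))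
    (fun a ha => hC.zero f a ha)

/-- The theory attached to the relation `R`. -/
noncomputable def model (hC : IsChow W R) : TheoryData.{u, u, 0} 𝒱 ℚ where
  A X := AX hC.congruence X
  ring X := ringA hC.congruence hC.product X
  algebra X := algA hC.congruence hC.product X
  gr X i := grA hC.congruence X i
  pull {X Y} f :=
    letI := ringA hC.congruence hC.product X
    letI := ringA hC.congruence hC.product Y
    letI := algA hC.congruence hC.product X
    letI := algA hC.congruence hC.product Y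
    AlgHom.ofLinearMap (pullA hC.congruence hC.pull f) ((mk_eq _).2 (hC.pull.one f))
      (fun a b => by
        obtain ⟨a, rfl⟩ := mk_surj _ a
        obtain ⟨b, rfl⟩ := mk_surj _ b
        exact (mk_eq _).2 (hC.pull.mul f a b))
  push f := pushA hC.congruence hC.push f

end Pool.Agent.Y106.CG
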