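import Pool.Agent.Y106.CG.Conv

/-!
# Chow motives of the fixed part, and Chow-Kunneth decompositions of fibres
-/

open CategoryTheory AlgebraicGeometry

universe u v w

namespace Pool.Agent.Y106.CG

open Pool.Agent.H914 Pool.Agent.H914.VarClass Pool.Agent.H914.VarClass.Obj
  Pool.Agent.W498.Dom Pool.Agent.Y106.FP Pool.Agent.W550.B Pool.Agent.W492.BB
  Pool.Agent.W492.BB.TheoryData

/-- The main theorem. -/
theorem top {k : Type u} [Field k] {𝒱 : VarClass k} {ops : CycleOps 𝒱}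
    {W : WeilCohomology.{u, v} ops} {R : CycRel 𝒱} (hR : IsChow W R)
    {Z S : 𝒱.Obj} {g : Z ⟶ S} {G : S.Cycles} {E D : Z.Cycles}
    (hG : S.IsCyc 1 G) (hE : Z.IsCyc 1 E) (Q : PerverseDecomposition W g G E)
    (hB : StandardB W Z D) (hN : NilHomTrivial W R Z) :
    (∀ (F : 𝒱.Obj) (i : F ⟶ Z), IsSmoothFibre Q i → ∃ ρ, IsFixedSystem W R i ρ) ∧
    (∀ (F F' : 𝒱.Obj) (i : F ⟶ Z) (i' : F' ⟶ Z) (ρ : ℕ → (F.prod F).Cycles)
      (ρ' : ℕ → (F'.prod F').Cycles), IsSmoothFibre Q i → IsSmoothFibre Q i' →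
      IsFixedSystem W R i ρ → IsFixedSystem W R i' ρ' →
      ∀ j, IsoByTransport W R i i' j (ρ j) (ρ' j)) ∧
    (∀ (F : 𝒱.Obj) (i : F ⟶ Z) (ρ : ℕ → (F.prod F).Cycles), IsSmoothFibre Q i →
      IsFixedSystem W R i ρ → FixedOrAlgebraic W i → ∃ π, IsCKDec W R F π ∧
        ∀ j, R.Eqv (compCyc ops (π j) (ρ j)) (ρ j) ∧ R.Eqv (compCyc ops (ρ j) (π j)) (ρ j)) := by
  obtain ⟨h1, h2, h3⟩ := CK.top (cc hR) hG hE Q (lefschetz_of hB).1 (lefschetz_of hB).2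
    (nilHomTrivial_cls hR hN)
  refine ⟨fun F i hi => ?_, fun F F' i i' ρ ρ' hi hi' hρ hρ' j => ?_, fun F i ρ hi hρ hF => ?_⟩
  · obtain ⟨ρ, hρ⟩ := h1 F i (isFibre_of hR hi)
    obtain ⟨ρ', hρ', _⟩ := exists_isFixedSystem hR hρ
    exact ⟨ρ', hρ'⟩
  · obtain ⟨u, v, huv, hx⟩ := h2 F F' i i' _ _ (isFibre_of hR hi) (isFibre_of hR hi') (isFixedSystem_cls hR hρ)
      (isFixedSystem_cls hR hρ') j
    obtain ⟨u', v', huv', rfl, rfl⟩ := exists_isIsoPair hR huv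
    exact ⟨u', v', huv', fun x hx' => hx x hx'⟩
  · obtain ⟨π, hπ, hρπ⟩ := h3 F i _ (isFibre_of hR hi) (isFixedSystem_cls hR hρ) (fixedOrAlgebraic_cls hF)
    obtain ⟨π', hπ', he⟩ := exists_isCKDec hR hπ
    refine ⟨π', hπ', fun j => ⟨?_, ?_⟩⟩
    · rw [← cls_eq hR, cls_comp, he]
      exact (hρπ j).1
    · rw [← cls_eq hR, cls_comp, he]
      exact (hρπ j).2

end Pool.Agent.Y106.CG
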