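import Pool.Agent.Y106.CG.TopMurre
import Pool.Agent.Y106.CG.DefsC
import Pool.Agent.Y106.CK.Indep3

/-!
# Murre's conjecture (C) for the fixed part and for fibres
-/

open CategoryTheory AlgebraicGeometry

universe u v w

namespace Pool.Agent.Y106.CG

open Pool.Agent.H914 Pool.Agent.H914.VarClass Pool.Agent.H914.VarClass.Obj
  Pool.Agent.W498.Dom Pool.Agent.Y106.FP Pool.Agent.W550.B Pool.Agent.W492.BB
  Pool.Agent.W492.BB.TheoryData

section conv

variable {k : Type u} [Field k] {𝒱 : VarClass k} {ops : CycleOps 𝒱}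
    {W : WeilCohomology.{u, v} ops} {R : CycRel 𝒱} (hC : IsChow W R) {X Y F F' Z : 𝒱.Obj}

lemma inStep_cls {π : ℕ → (X.prod X).Cycles} {l m : ℕ} {z : X.Cycles} :
    InStep ops R π l m z ↔ CK.InStep (model hC) (fun j => cls hC (π j)) l m (cls hC z) := by
  constructor
  · rintro ⟨y, hy, he⟩
    refine ⟨cls hC y, cls_mem hC hy, ?_⟩
    rw [(cls_eq hC).2 he, cls_sum]
    rfl
  · rintro ⟨y, hy, he⟩
    obtain ⟨y', hy', rfl⟩ := (mem_gr hC).1 hy
    refine ⟨y', hy', (cls_eq hC).1 ?_⟩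
    rw [he, cls_sum]
    rfl

lemma murreC_cls : MurreC R W X ↔ CK.Indep (cc hC) X := by
  constructor
  · intro h π₁ π₂ h1 h2 l m x hx
    obtain ⟨π, hπ, he⟩ := exists_isCKDec hC h1
    obtain ⟨π', hπ', he'⟩ := exists_isCKDec hC h2
    obtain ⟨z, rfl⟩ := cls_surj hC x
    have e : (fun j => cls hC (π j)) = π₁ := funext he
    have e' : (fun j => cls hC (π' j)) = π₂ := funext he'
    rw [← e, ← inStep_cls] at hx
    rw [← e', ← inStep_cls]
    exact h π π' hπ hπ' l m z hx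
  · intro h π π' hπ hπ' l m z hz
    rw [inStep_cls hC] at hz ⊢
    exact h _ _ (isCKDec_cls hC hπ) (isCKDec_cls hC hπ') _ _ _ hz

lemma image3_iff {γ : (Y.prod Y).Cycles} {c : (X.prod Y).Cycles} {δ : (X.prod X).Cycles}
    {z : X.Cycles} : R.Eqv (image ops γ (image ops c (image ops δ z))) 0 ↔
      (model hC).act (cls hC γ) ((model hC).act (cls hC c)
        ((model hC).act (cls hC δ) (cls hC z))) = 0 := by
  rw [image_iff hC, cls_image, cls_image]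

lemma noRaise_cls {π : ℕ → (X.prod X).Cycles} {j n : ℕ} :
    NoRaise ops R π π j n ↔ CK.NoRaise (model hC) (fun j => cls hC (π j)) j n := by
  constructor
  · intro h c hc l x hx
    obtain ⟨c', hc', rfl⟩ := (mem_gr hC).1 hc
    obtain ⟨z, hz, rfl⟩ := (mem_gr hC).1 hx
    exact (image3_iff hC).1 (h c' hc' l z hz)
  · intro h c hc l z hz
    exact (image3_iff hC).2 (h _ (cls_mem hC hc) l _ (cls_mem hC hz))

lemma allFixedOrAlgebraic_cls {i : F ⟶ Z} (h : AllFixedOrAlgebraic W i) :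
    CK.AllFixedOrAlgebraic W i := by
  intro j a ha
  obtain ⟨x, m, c, z, hz, rfl⟩ := h j a ha
  refine Submodule.add_mem _ (Submodule.mem_sup_left ⟨x, rfl⟩) (Submodule.mem_sup_right
    (Submodule.sum_mem _ fun s _ => Submodule.smul_mem _ _ (Submodule.subset_span ?_)))
  obtain ⟨p, hp, hzs⟩ := hz s
  exact ⟨p, z s, hp, hzs, rfl⟩

end conv

section main

variable {k : Type u} [Field k] {𝒱 : VarClass k} {ops : CycleOps 𝒱}
    {W : WeilCohomology.{u, v} ops} {R : CycRel 𝒱} (hR : IsChow W R)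
    {Z S : 𝒱.Obj} {g : Z ⟶ S} {G : S.Cycles} {E D : Z.Cycles}
    (hG : S.IsCyc 1 G) (hE : Z.IsCyc 1 E) (Q : PerverseDecomposition W g G E)
    (hB : StandardB W Z D) (hN : NilHomTrivial W R Z)
    {π : ℕ → (Z.prod Z).Cycles} (hπ : IsCKDec W R Z π) (hI : MurreC R W Z)

include hR hN hπ hI

omit hN in
lemma baseNoRaise : ∀ j n, j < n → CK.NoRaise (model hR) (fun j => cls hR (π j)) j n :=
  fun _ _ hjn => ((murreC_cls hR).1 hI).noRaise (isCKDec_cls hR hπ) hjn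

theorem fixedNoRaise (F F' : 𝒱.Obj) (i : F ⟶ Z) (i' : F' ⟶ Z) (ρ : ℕ → (F.prod F).Cycles)
    (ρ' : ℕ → (F'.prod F').Cycles) (hi : IsSmoothFibre Q i) (hi' : IsSmoothFibre Q i')
    (hρ : IsFixedSystem W R i ρ) (hρ' : IsFixedSystem W R i' ρ') (j n : ℕ) (hjn : j < n) :
    NoRaise ops R ρ ρ' j n := fun c hc l z hz =>
  (image3_iff hR).2 (CK.fixed_noRaise (isFixedSystem_cls hR hρ) (isFixedSystem_cls hR hρ')
    (isCKDec_cls hR hπ) (nilHomTrivial_cls hR hN) hi.dim_eq hi'.dim_eq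
    (baseNoRaise hR hπ hI) hjn (cls_mem hR hc) (cls_mem hR hz))

theorem fixedAbove (F : 𝒱.Obj) (i : F ⟶ Z) (ρ : ℕ → (F.prod F).Cycles)
    (hi : IsSmoothFibre Q i) (hρ : IsFixedSystem W R i ρ) : ZeroAbove ops R ρ :=
  fun l n hln z hz => (image_iff hR).2 (CK.fixed_above (isFixedSystem_cls hR hρ)
    (isCKDec_cls hR hπ) (nilHomTrivial_cls hR hN) hi.dim_eq (one_ne_zero_H hR Z)
    (baseNoRaise hR hπ hI) hln (cls_mem hR hz))

include hG hE hB

/-- The theorem on (C). -/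
theorem topC :
    (∀ (F : 𝒱.Obj) (i : F ⟶ Z), IsSmoothFibre Q i → ∃ ρ, IsFixedSystem W R i ρ) ∧
    (∀ (F F' : 𝒱.Obj) (i : F ⟶ Z) (i' : F' ⟶ Z) (ρ : ℕ → (F.prod F).Cycles)
      (ρ' : ℕ → (F'.prod F').Cycles), IsSmoothFibre Q i → IsSmoothFibre Q i' →
      IsFixedSystem W R i ρ → IsFixedSystem W R i' ρ' →
      ZeroAbove ops R ρ ∧ ∀ j n, j < n → NoRaise ops R ρ ρ' j n) ∧
    (∀ (F : 𝒱.Obj) (i : F ⟶ Z), IsSmoothFibre Q i → NilHomTrivial W R F →
      AllFixedOrAlgebraic W i → MurreC R W F ∧ ∃ π', IsCKDec W R F π') ∧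
    (∀ (F : 𝒱.Obj) (i : F ⟶ Z), IsSmoothFibre Q i → NilHomTrivial W R F →
      FixedOrAlgebraic W i → (∃ π', IsCKDec W R F π') ∧
        ∀ π', IsCKDec W R F π' → (MurreC R W F ↔
          ∀ j n, j < n → (j = F.dim ∨ n = F.dim) → NoRaise ops R π' π' j n)) := by
  have hT := top hR hG hE Q hB hN
  refine ⟨hT.1, fun F F' i i' ρ ρ' hi hi' hρ hρ' =>
    ⟨fixedAbove hR Q hN hπ hI F i ρ hi hρ, fixedNoRaise hR Q hN hπ hI F F' i i' ρ ρ' hi hi' hρ hρ'⟩,
    fun F i hi hNF hF => ?_, fun F i hi hNF hF => ?_⟩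
  · obtain ⟨ρ, hρ⟩ := hT.1 F i hi
    have hρ' := isFixedSystem_cls hR hρ
    have hNF' := nilHomTrivial_cls hR hNF
    have hF' := allFixedOrAlgebraic_cls hF
    have h1 : ∀ j n, j < n → CK.NoRaise (model hR) (fun j => cls hR (ρ j)) j n := fun j n hjn =>
      (noRaise_cls hR).1 (fixedNoRaise hR Q hN hπ hI F F i i ρ ρ hi hi hρ hρ j n hjn)
    have h2 : ∀ l n : ℕ, 2 * l < n → ∀ x ∈ (model hR).gr F l,
        (model hR).act (cls hR (ρ n)) x = 0 := by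
      intro l n hln x hx
      obtain ⟨z, hz, rfl⟩ := (mem_gr hR).1 hx
      exact (image_iff hR).1 (fixedAbove hR Q hN hπ hI F i ρ hi hρ l n hln z hz)
    refine ⟨(murreC_cls hR).2 (CK.fibre_indep hρ' hF' hNF' (one_ne_zero_H hR F) h1 h2), ?_⟩
    obtain ⟨π₁, -, -, -, hπ₁, -⟩ := CK.exists_ck_all hρ' hF' hNF'
    obtain ⟨π', hπ', -⟩ := exists_isCKDec hR hπ₁
    exact ⟨π', hπ'⟩
  · obtain ⟨ρ, hρ⟩ := hT.1 F i hi
    have hρ' := isFixedSystem_cls hR hρ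
    have hNF' := nilHomTrivial_cls hR hNF
    have h1 : ∀ j n, j < n → CK.NoRaise (model hR) (fun j => cls hR (ρ j)) j n := fun j n hjn =>
      (noRaise_cls hR).1 (fixedNoRaise hR Q hN hπ hI F F i i ρ ρ hi hi hρ hρ j n hjn)
    have h2 : ∀ l n : ℕ, 2 * l < n → ∀ x ∈ (model hR).gr F l,
        (model hR).act (cls hR (ρ n)) x = 0 := by
      intro l n hln x hx
      obtain ⟨z, hz, rfl⟩ := (mem_gr hR).1 hx
      exact (image_iff hR).1 (fixedAbove hR Q hN hπ hI F i ρ hi hρ l n hln z hz)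
    obtain ⟨π₁, hπ₁, -⟩ := hT.2.2 F i ρ hi hρ hF
    refine ⟨⟨π₁, hπ₁⟩, fun π' hπ' => ?_⟩
    rw [murreC_cls hR, CK.fibre_indep_iff hρ' (fixedOrAlgebraic_cls hF) hNF'
      (one_ne_zero_H hR F) h1 h2 (isCKDec_cls hR hπ')]
    simp only [noRaise_cls hR]

end main

end Pool.Agent.Y106.CG
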