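import Pool.Agent.Y106.CG.Top
import Pool.Agent.Y106.CG.DefsDual
import Pool.Agent.Y106.CK.DecS

/-!
# Self-dual systems of projectors onto the fixed part, and self-dual Chow-Kunneth decompositions
-/

open CategoryTheory AlgebraicGeometry

universe u v w

namespace Pool.Agent.Y106.CG

open Pool.Agent.H914 Pool.Agent.H914.VarClass Pool.Agent.H914.VarClass.Obj
  Pool.Agent.W498.Dom Pool.Agent.Y106.FP Pool.Agent.W550.B Pool.Agent.W492.BB
  Pool.Agent.W492.BB.TheoryData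

section conv

variable {k : Type u} [Field k] {𝒱 : VarClass k} {ops : CycleOps 𝒱}
    {W : WeilCohomology.{u, v} ops} {R : CycRel 𝒱} (hC : IsChow W R) {X Y : 𝒱.Obj}

lemma cls_tcyc (γ : (X.prod Y).Cycles) :
    cls hC (tcyc ops γ) = Pool.Agent.TH133.tp (model hC) (cls hC γ) := rfl

lemma isSelfDual_cls {π : ℕ → (X.prod X).Cycles} :
    IsSelfDual ops R π ↔ Pool.Agent.TH133.IsSelfDual (model hC) (fun j => cls hC (π j)) := by
  constructor
  · intro h j hj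
    rw [← cls_tcyc]
    exact (cls_eq hC).2 (h j hj)
  · intro h j hj
    rw [← cls_eq hC, cls_tcyc]
    exact h j hj

end conv

/-- The main theorem. -/
theorem topDual {k : Type u} [Field k] {𝒱 : VarClass k} {ops : CycleOps 𝒱}
    {W : WeilCohomology.{u, v} ops} {R : CycRel 𝒱} (hR : IsChow W R)
    {Z S : 𝒱.Obj} {g : Z ⟶ S} {G : S.Cycles} {E D : Z.Cycles}
    (hG : S.IsCyc 1 G) (hE : Z.IsCyc 1 E) (Q : PerverseDecomposition W g G E)
    (hB : StandardB W Z D) (hN : NilHomTrivial W R Z) :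
    (∀ (F : 𝒱.Obj) (i : F ⟶ Z), IsSmoothFibre Q i →
      ∃ ρ, IsFixedSystem W R i ρ ∧ IsSelfDual ops R ρ) ∧
    (∀ (F : 𝒱.Obj) (i : F ⟶ Z) (ρ : ℕ → (F.prod F).Cycles), IsSmoothFibre Q i →
      IsFixedSystem W R i ρ → ∃ ρ', IsFixedSystem W R i ρ' ∧ IsSelfDual ops R ρ' ∧
        ∀ j, IsoByTransport W R i i j (ρ j) (ρ' j)) ∧
    (∀ (F : 𝒱.Obj) (i : F ⟶ Z) (ρ : ℕ → (F.prod F).Cycles), IsSmoothFibre Q i →
      IsFixedSystem W R i ρ → IsSelfDual ops R ρ → FixedOrAlgebraic W i →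
      ∃ π, IsCKDec W R F π ∧ IsSelfDual ops R π ∧
        ∀ j, R.Eqv (compCyc ops (π j) (ρ j)) (ρ j) ∧ R.Eqv (compCyc ops (ρ j) (π j)) (ρ j)) := by
  obtain ⟨t1, t2, -⟩ := top hR hG hE Q hB hN
  have hN' := nilHomTrivial_cls hR hN
  have key : ∀ (F : 𝒱.Obj) (i : F ⟶ Z) (ρ : ℕ → (F.prod F).Cycles), IsFixedSystem W R i ρ →
      ∃ ρ', IsFixedSystem W R i ρ' ∧ IsSelfDual ops R ρ' := by
    intro F i ρ hρ
    obtain ⟨ρ₁, hρ₁, hs⟩ := CK.exists_selfDual (isFixedSystem_cls hR hρ) hN'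
    obtain ⟨ρ', hρ', he⟩ := exists_isFixedSystem hR hρ₁
    refine ⟨ρ', hρ', (isSelfDual_cls hR).2 ?_⟩
    have : (fun j => cls hR (ρ' j)) = ρ₁ := funext he
    rw [this]
    exact hs
  refine ⟨fun F i hi => ?_, fun F i ρ hi hρ => ?_, fun F i ρ hi hρ hs hF => ?_⟩
  · obtain ⟨ρ, hρ⟩ := t1 F i hi
    exact key F i ρ hρ
  · obtain ⟨ρ', hρ', hs⟩ := key F i ρ hρ
    exact ⟨ρ', hρ', hs, t2 F F i i ρ ρ' hi hi hρ hρ'⟩
  · obtain ⟨π, hπ, hρπ, hsπ⟩ := CK.exists_ck_selfDual (isFixedSystem_cls hR hρ)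
      ((isSelfDual_cls hR).1 hs) (fixedOrAlgebraic_cls hF)
    obtain ⟨π', hπ', he⟩ := exists_isCKDec hR hπ
    refine ⟨π', hπ', (isSelfDual_cls hR).2 ?_, fun j => ⟨?_, ?_⟩⟩
    · have : (fun j => cls hR (π' j)) = π := funext he
      rw [this]
      exact hsπ
    · rw [← cls_eq hR, cls_comp, he]
      exact (hρπ j).1
    · rw [← cls_eq hR, cls_comp, he]
      exact (hρπ j).2

end Pool.Agent.Y106.CG
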