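import Pool.Agent.Y106.CG.Top
import Pool.Agent.Y106.CG.DefsMurre
import Pool.Agent.Y106.CK.Murre

/-!
# Murre's conjectures (B) and (D) for the fixed part and for fibres
-/

open CategoryTheory AlgebraicGeometry

universe u v w

namespace Pool.Agent.Y106.CG

open Pool.Agent.H914 Pool.Agent.H914.VarClass Pool.Agent.H914.VarClass.Obj
  Pool.Agent.W498.Dom Pool.Agent.Y106.FP Pool.Agent.W550.B Pool.Agent.W492.BB
  Pool.Agent.W492.BB.TheoryData

section conv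

variable {k : Type u} [Field k] {𝒱 : VarClass k} {ops : CycleOps 𝒱}
    {W : WeilCohomology.{u, v} ops} {R : CycRel 𝒱} (hC : IsChow W R) {X Y F Z : 𝒱.Obj}

lemma cls_image (γ : (X.prod Y).Cycles) (z : X.Cycles) :
    cls hC (image ops γ z) = (model hC).act (cls hC γ) (cls hC z) := rfl

lemma image_iff {γ : (X.prod Y).Cycles} {z : X.Cycles} :
    R.Eqv (image ops γ z) 0 ↔ (model hC).act (cls hC γ) (cls hC z) = 0 := by
  rw [← cls_eq_zero hC, cls_image]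

lemma isDirectFactor_iff {p : (F.prod F).Cycles} {q : (Z.prod Z).Cycles} :
    IsDirectFactor ops R p q ↔ ∃ a b, CK.IsFactor (model hC) (cls hC p) (cls hC q) a b := by
  constructor
  · rintro ⟨a, b, h1, h2, h3, h4, h5⟩
    refine ⟨cls hC a, cls hC b, cls_mem hC h1, cls_mem hC h2, ?_, ?_, ?_⟩
    · rw [← cls_comp, ← cls_comp]; exact (cls_eq hC).2 h3
    · rw [← cls_comp, ← cls_comp]; exact (cls_eq hC).2 h4
    · rw [← cls_comp]; exact (cls_eq hC).2 h5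
  · rintro ⟨a, b, h⟩
    obtain ⟨a, ha, rfl⟩ := (mem_gr hC).1 h.deg_a
    obtain ⟨b, hb, rfl⟩ := (mem_gr hC).1 h.deg_b
    refine ⟨a, b, ha, hb, ?_, ?_, ?_⟩
    · rw [← cls_eq hC, cls_comp, cls_comp]; exact h.hom_a
    · rw [← cls_eq hC, cls_comp, cls_comp]; exact h.hom_b
    · rw [← cls_eq hC, cls_comp]; exact h.comp_ab

lemma satB_cls {π : ℕ → (X.prod X).Cycles} :
    MurreB ops R π ↔ CK.SatB (model hC) (fun j => cls hC (π j)) := by
  constructor
  · intro h j l hjl x hx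
    obtain ⟨z, hz, rfl⟩ := (mem_gr hC).1 hx
    exact (image_iff hC).1 (h j l hjl z hz)
  · intro h j l hjl z hz
    exact (image_iff hC).2 (h j l hjl _ (cls_mem hC hz))

lemma satD_cls {π : ℕ → (X.prod X).Cycles} :
    MurreD R W π ↔ CK.SatD (cc hC) (fun j => cls hC (π j)) := by
  constructor
  · intro h j l hjl x hx h0
    obtain ⟨z, hz, rfl⟩ := (mem_gr hC).1 hx
    exact (image_iff hC).1 (h j l hjl z hz h0)
  · intro h j l hjl z hz h0
    exact (image_iff hC).2 (h j l hjl _ (cls_mem hC hz) h0)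

lemma middleB_cls {γ : (X.prod X).Cycles} {n : ℕ} :
    (∀ l z, 2 * l < n → X.IsCyc l z → R.Eqv (image ops γ z) 0) ↔
      ∀ l : ℕ, 2 * l < n → ∀ x ∈ (model hC).gr X l, (model hC).act (cls hC γ) x = 0 := by
  constructor
  · intro h l hl x hx
    obtain ⟨z, hz, rfl⟩ := (mem_gr hC).1 hx
    exact (image_iff hC).1 (h l z hl hz)
  · intro h l z hl hz
    exact (image_iff hC).2 (h l hl _ (cls_mem hC hz))

lemma middleD_cls {γ : (X.prod X).Cycles} {n : ℕ} :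
    (∀ l z, 2 * l ≤ n → X.IsCyc l z → hcl W z = 0 → R.Eqv (image ops γ z) 0) ↔
      ∀ l : ℕ, 2 * l ≤ n → ∀ x ∈ (model hC).gr X l, (cc hC).cl x = 0 →
        (model hC).act (cls hC γ) x = 0 := by
  constructor
  · intro h l hl x hx h0
    obtain ⟨z, hz, rfl⟩ := (mem_gr hC).1 hx
    exact (image_iff hC).1 (h l z hl hz h0)
  · intro h l z hl hz h0
    exact (image_iff hC).2 (h l hl _ (cls_mem hC hz) h0)

lemma picard_cls (h : PicardProperty R W X) : CK.Picard (cc hC) X := by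
  intro γ hγ hact x hx h0
  obtain ⟨γ', hγ', rfl⟩ := (mem_gr hC).1 hγ
  have hx' : x ∈ (model hC).gr X ((1 : ℕ) : ℤ) := by exact_mod_cast hx
  obtain ⟨z, hz, rfl⟩ := (mem_gr hC).1 hx'
  exact (image_iff hC).1 (h γ' hγ' hact z hz h0)

include hC in
/-- The cohomology of a variety is not zero. -/
lemma one_ne_zero_H (X : 𝒱.Obj) : (1 : W.H X) ≠ 0 := by
  intro h
  obtain ⟨z, hz, hz0⟩ := hC.degrees.polarized X
  have h1 := W.tr_cl (z := cpow ops z X.dim) (cpow_mem hz X.dim)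
  have h2 : W.cl X (cpow ops z X.dim) = 0 := by
    rw [← one_mul (W.cl X _), h, zero_mul]
  rw [h2, map_zero] at h1
  exact hz0 (by exact_mod_cast h1.symm)

end conv

section main

variable {k : Type u} [Field k] {𝒱 : VarClass k} {ops : CycleOps 𝒱}
    {W : WeilCohomology.{u, v} ops} {R : CycRel 𝒱} (hR : IsChow W R)
    {Z S : 𝒱.Obj} {g : Z ⟶ S} {G : S.Cycles} {E D : Z.Cycles}
    (hG : S.IsCyc 1 G) (hE : Z.IsCyc 1 E) (Q : PerverseDecomposition W g G E)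
    (hB : StandardB W Z D) (hN : NilHomTrivial W R Z)
    {π : ℕ → (Z.prod Z).Cycles} (hπ : IsCKDec W R Z π)

include hR hN hπ

/-- The motives of the fixed part are direct factors. -/
theorem directFactor (F : 𝒱.Obj) (i : F ⟶ Z) (ρ : ℕ → (F.prod F).Cycles)
    (hi : IsSmoothFibre Q i) (hρ : IsFixedSystem W R i ρ) (j : ℕ) :
    IsDirectFactor ops R (ρ j) (π j) := by
  rw [isDirectFactor_iff hR]
  exact CK.exists_factor (isFixedSystem_cls hR hρ) (nilHomTrivial_cls hR hN) hi.dim_eq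
    (isCKDec_cls hR hπ) j

theorem fixedB (hπB : MurreB ops R π) (F : 𝒱.Obj) (i : F ⟶ Z) (ρ : ℕ → (F.prod F).Cycles)
    (hi : IsSmoothFibre Q i) (hρ : IsFixedSystem W R i ρ) : MurreB ops R ρ := by
  rw [satB_cls hR] at hπB ⊢
  have hπ' := isCKDec_cls hR hπ
  refine CK.IsFactor.satB hπB (fun j => by rw [hπ'.comp, if_pos rfl]) fun j => ?_
  exact (isDirectFactor_iff hR).1 (directFactor hR Q hN hπ F i ρ hi hρ j)

theorem fixedD (hπD : MurreD R W π) (F : 𝒱.Obj) (i : F ⟶ Z) (ρ : ℕ → (F.prod F).Cycles)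
    (hi : IsSmoothFibre Q i) (hρ : IsFixedSystem W R i ρ) : MurreD R W ρ := by
  rw [satD_cls hR] at hπD ⊢
  have hπ' := isCKDec_cls hR hπ
  refine CK.IsFactor.satD hπD (fun j => by rw [hπ'.comp, if_pos rfl]) fun j => ?_
  exact (isDirectFactor_iff hR).1 (directFactor hR Q hN hπ F i ρ hi hρ j)

include hG hE hB

/-- The theorem on (B). -/
theorem topB :
    (∀ (F : 𝒱.Obj) (i : F ⟶ Z), IsSmoothFibre Q i → ∃ ρ, IsFixedSystem W R i ρ) ∧
    (∀ (F : 𝒱.Obj) (i : F ⟶ Z) (ρ : ℕ → (F.prod F).Cycles), IsSmoothFibre Q i →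
      IsFixedSystem W R i ρ → ∀ j, IsDirectFactor ops R (ρ j) (π j)) ∧
    (MurreB ops R π →
      (∀ (F : 𝒱.Obj) (i : F ⟶ Z) (ρ : ℕ → (F.prod F).Cycles), IsSmoothFibre Q i →
        IsFixedSystem W R i ρ → MurreB ops R ρ) ∧
      ∀ (F : 𝒱.Obj) (i : F ⟶ Z), IsSmoothFibre Q i → FixedOrAlgebraic W i →
        ∃ π', IsCKDec W R F π' ∧
          (MurreB ops R π' ↔
            ∀ l z, 2 * l < F.dim → F.IsCyc l z → R.Eqv (image ops (π' F.dim) z) 0) ∧
          (F.dim ≤ 4 → PicardProperty R W F → MurreB ops R π')) := by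
  refine ⟨(top hR hG hE Q hB hN).1, directFactor hR Q hN hπ, fun hπB =>
    ⟨fixedB hR Q hN hπ hπB, fun F i hi hF => ?_⟩⟩
  obtain ⟨ρ, hρ⟩ := (top hR hG hE Q hB hN).1 F i hi
  have hρB := fixedB hR Q hN hπ hπB F i ρ hi hρ
  obtain ⟨π₁, hπ₁, -, h1, -, h2, -⟩ := CK.exists_ck_murre (isFixedSystem_cls hR hρ)
    (fixedOrAlgebraic_cls hF) (one_ne_zero_H hR F)
  obtain ⟨π', hπ', he⟩ := exists_isCKDec hR hπ₁
  have he' : (fun j => cls hR (π' j)) = π₁ := funext he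
  refine ⟨π', hπ', ?_, fun hd hP => ?_⟩
  · rw [satB_cls hR, he', h1 ((satB_cls hR).1 hρB), middleB_cls hR, he]
  · rw [satB_cls hR, he']
    exact h2 (picard_cls hR hP) hd ((satB_cls hR).1 hρB)

/-- The theorem on (D). -/
theorem topD (hπD : MurreD R W π) :
    (∀ (F : 𝒱.Obj) (i : F ⟶ Z) (ρ : ℕ → (F.prod F).Cycles), IsSmoothFibre Q i →
      IsFixedSystem W R i ρ → MurreD R W ρ) ∧
    (∀ (F : 𝒱.Obj) (i : F ⟶ Z), IsSmoothFibre Q i → FixedOrAlgebraic W i →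
      ∃ π', IsCKDec W R F π' ∧
        (MurreD R W π' ↔ ∀ l z, 2 * l ≤ F.dim → F.IsCyc l z → hcl W z = 0 →
          R.Eqv (image ops (π' F.dim) z) 0) ∧
        (F.dim ≤ 3 → PicardProperty R W F → MurreD R W π')) := by
  refine ⟨fixedD hR Q hN hπ hπD, fun F i hi hF => ?_⟩
  obtain ⟨ρ, hρ⟩ := (top hR hG hE Q hB hN).1 F i hi
  have hρD := fixedD hR Q hN hπ hπD F i ρ hi hρ
  obtain ⟨π₁, hπ₁, -, -, h1, -, h2⟩ := CK.exists_ck_murre (isFixedSystem_cls hR hρ)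
    (fixedOrAlgebraic_cls hF) (one_ne_zero_H hR F)
  obtain ⟨π', hπ', he⟩ := exists_isCKDec hR hπ₁
  have he' : (fun j => cls hR (π' j)) = π₁ := funext he
  refine ⟨π', hπ', ?_, fun hd hP => ?_⟩
  · rw [satD_cls hR, he', h1 ((satD_cls hR).1 hρD), middleD_cls hR, he]
  · rw [satD_cls hR, he']
    exact h2 (picard_cls hR hP) hd ((satD_cls hR).1 hρD)

end main

end Pool.Agent.Y106.CG
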